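import Mathlib

set_option autoImplicit false

/-!
# MP_65b7ad_lc: path consistency for symmetric relation algebras with a flexible atom (definitions)

Part A: relation algebras, representations, networks, the (l,k)-consistency procedure.
Part B: the combinatorial layer (atom structures, closed labellings).
-/

namespace Pool.Agent.Helper32.RA7

/-! ### Part A -/

/-- A relation algebra on a Boolean algebra: the operations composition, converse and identity with
the axioms of Tarski. -/
structure RelAlg (A : Type) [BooleanAlgebra A] where
  comp : A → A → A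
  conv : A → A
  idt : A
  comp_assoc : ∀ a b c : A, comp (comp a b) c = comp a (comp b c)
  comp_idt : ∀ a : A, comp a idt = a
  comp_sup : ∀ a b c : A, comp (a ⊔ b) c = comp a c ⊔ comp b c
  conv_conv : ∀ a : A, conv (conv a) = a
  conv_sup : ∀ a b : A, conv (a ⊔ b) = conv a ⊔ conv b
  conv_comp : ∀ a b : A, conv (comp a b) = comp (conv b) (conv a)
  tarski : ∀ a b : A, comp (conv a) (comp a b)ᶜ ⊔ bᶜ = bᶜ

/-- symmetric: every element is its own converse -/
def RelAlg.Symm {A : Type} [BooleanAlgebra A] (R : RelAlg A) : Prop := ∀ a : A, R.conv a = a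

/-- integral: the identity is an atom -/
def RelAlg.Integral {A : Type} [BooleanAlgebra A] (R : RelAlg A) : Prop := IsAtom R.idt

/-- s is a flexible atom: an atom different from the identity and below the composition of any two
atoms different from the identity -/
def RelAlg.Flexible {A : Type} [BooleanAlgebra A] (R : RelAlg A) (s : A) : Prop :=
  IsAtom s ∧ s ≠ R.idt ∧
    ∀ a b : A, IsAtom a → IsAtom b → a ≠ R.idt → b ≠ R.idt → s ≤ R.comp a b

/-- A representation: the elements are interpreted (faithfully) as binary relations on a set so that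
the operations become the set theoretic ones; complements are taken inside the largest relation. -/
structure Rep {A : Type} [BooleanAlgebra A] (R : RelAlg A) (D : Type) where
  rel : A → D → D → Prop
  inj : Function.Injective rel
  bot : ∀ x y : D, ¬ rel ⊥ x y
  sup : ∀ (a b : A) (x y : D), rel (a ⊔ b) x y ↔ rel a x y ∨ rel b x y
  compl : ∀ (a : A) (x y : D), rel aᶜ x y ↔ rel ⊤ x y ∧ ¬ rel a x y
  idt : ∀ x y : D, rel R.idt x y ↔ x = y
  conv : ∀ (a : A) (x y : D), rel (R.conv a) x y ↔ rel a y x
  comp : ∀ (a b : A) (x y : D), rel (R.comp a b) x y ↔ ∃ z : D, rel a x z ∧ rel b z y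

/-- the network f on the set V is satisfiable in some representation -/
def Sat {A : Type} [BooleanAlgebra A] (R : RelAlg A) {V : Type} (f : V → V → A) : Prop :=
  ∃ (D : Type) (ρ : Rep R D) (h : V → D), ∀ x y : V, ρ.rel (f x y) (h x) (h y)

/-- restriction of a labelling of the pairs of a set K to the pairs of a subset L -/
def res {V B : Type} {L K : Finset V} (h : L ⊆ K) (σ : K → K → B) : L → L → B :=
  fun x y => σ ⟨x.1, h x.2⟩ ⟨y.1, h y.2⟩

/-- σ is a partial solution on K of the network f: it labels the pairs of K by atoms below f, and the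
resulting network on K is satisfiable -/
def IsPartial {A : Type} [BooleanAlgebra A] (R : RelAlg A) {V : Type} (f : V → V → A)
    (K : Finset V) (σ : K → K → A) : Prop :=
  (∀ x y : K, IsAtom (σ x y)) ∧ (∀ x y : K, σ x y ≤ f x.1 y.1) ∧ Sat R σ

/-- P is an (l,k)-minimal refinement of the network f: it assigns to every set L of at most l
variables a set of partial solutions on L (the constraint on L), such that every member of P L extends,
for every set K of at most k variables containing L, to a partial solution on K all of whose
restrictions to sets of at most l variables satisfy the constraints. -/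
def IsMinimal {A : Type} [BooleanAlgebra A] (R : RelAlg A) {V : Type} (f : V → V → A) (l k : ℕ)
    (P : (L : Finset V) → Set (L → L → A)) : Prop :=
  ∀ L : Finset V, L.card ≤ l → ∀ σ ∈ P L, IsPartial R f L σ ∧
    ∀ (K : Finset V) (h : L ⊆ K), K.card ≤ k → ∃ τ : K → K → A, IsPartial R f K τ ∧
      res h τ = σ ∧ ∀ (L' : Finset V) (h' : L' ⊆ K), L'.card ≤ l → res h' τ ∈ P L'

/-- the (l,k)-consistency procedure does not reject: some (and so the largest) (l,k)-minimal
refinement has no empty constraint -/
def Accepts {A : Type} [BooleanAlgebra A] (R : RelAlg A) {V : Type} (f : V → V → A)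
    (l k : ℕ) : Prop :=
  ∃ P : (L : Finset V) → Set (L → L → A), IsMinimal R f l k P ∧
    ∀ L : Finset V, L.card ≤ l → (P L).Nonempty

/-- the (l,k)-consistency procedure solves the network satisfaction problem: it rejects exactly the
unsatisfiable networks -/
def Solves {A : Type} [BooleanAlgebra A] (R : RelAlg A) (l k : ℕ) : Prop :=
  ∀ (V : Type) [Finite V] (f : V → V → A), Accepts R f l k ↔ Sat R f

/-- Q1 of the problem (answered positively) -/
def Q1 : Prop :=
  ∀ (A : Type) [BooleanAlgebra A] [Finite A] (R : RelAlg A), R.Symm → R.Integral →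
    (∃ s : A, R.Flexible s) → (∃ l k : ℕ, l ≤ k ∧ Solves R l k) → Solves R 2 3

/-! ### Part B -/

/-- the combinatorial structure on the set of all atoms (the identity e included): R a b c says that
the triangle with sides a, b, c is allowed -/
structure Str (O : Type) where
  e : O
  s : O
  R : O → O → O → Prop
  sw : ∀ a b c : O, R a b c → R b a c
  rot : ∀ a b c : O, R a b c → R b c a
  idl : ∀ a b : O, R e a b ↔ a = b
  se : s ≠ e
  flex : ∀ a b : O, a ≠ e → b ≠ e → R s a b

/-- a labelling of the pairs of X all of whose triangles are allowed (different points may have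
label e: they are then identified) -/
def Closed {O : Type} (T : Str O) {X : Type} (c : X → X → O) : Prop :=
  (∀ x : X, c x x = T.e) ∧ (∀ x y : X, c x y = c y x) ∧
    ∀ x y z : X, T.R (c x y) (c y z) (c x z)

/-- partial solution on K of the combinatorial network F -/
def CPart {O : Type} (T : Str O) {X : Type} (F : X → X → Set O) (K : Finset X)
    (σ : K → K → O) : Prop :=
  Closed T σ ∧ ∀ x y : K, σ x y ∈ F x.1 y.1

/-- (l,k)-minimal refinement, combinatorial version -/
def CMin {O : Type} (T : Str O) {X : Type} (F : X → X → Set O) (l k : ℕ)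
    (P : (L : Finset X) → Set (L → L → O)) : Prop :=
  ∀ L : Finset X, L.card ≤ l → ∀ σ ∈ P L, CPart T F L σ ∧
    ∀ (K : Finset X) (h : L ⊆ K), K.card ≤ k → ∃ τ : K → K → O, CPart T F K τ ∧
      res h τ = σ ∧ ∀ (L' : Finset X) (h' : L' ⊆ K), L'.card ≤ l → res h' τ ∈ P L'

/-- the (l,k)-consistency procedure accepts the combinatorial network F -/
def CAcc {O : Type} (T : Str O) {X : Type} (F : X → X → Set O) (l k : ℕ) : Prop :=
  ∃ P : (L : Finset X) → Set (L → L → O), CMin T F l k P ∧
    ∀ L : Finset X, L.card ≤ l → (P L).Nonempty

/-- the combinatorial network F has a solution -/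
def CSat {O : Type} (T : Str O) {X : Type} (F : X → X → Set O) : Prop :=
  ∃ c : X → X → O, Closed T c ∧ ∀ x y : X, c x y ∈ F x y

/-- every combinatorial network accepted by the (l,k)-consistency procedure has a solution -/
def CSolves {O : Type} (T : Str O) (l k : ℕ) : Prop :=
  ∀ (X : Type) [Finite X] (F : X → X → Set O), CAcc T F l k → CSat T F

/-- the charges of the rows: the first row has charge 1, the others 0 -/
def ch {n : ℕ} (i : Fin n) : ZMod 2 := if i.1 = 0 then 1 else 0

/-- the solutions of row i of the complete graph system: vectors with entry 0 at i and sum ch i -/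
def Row (n : ℕ) (i : Fin n) : Type := {a : Fin n → ZMod 2 // a i = 0 ∧ ∑ j, a j = ch i}

end Pool.Agent.Helper32.RA7
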