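import Mathlib
import Pool.Agent.Helper32.RA7.Defs

set_option autoImplicit false

/-!
# MP_65b7ad_lc, project RA7: statements of the bridge modules and of the induction theorem

Every definition `StX` below is the statement of one module, with its proof in the docstring.  Module X
is the file `Pool/Agent/Helper32/RA7/M_X.lean` with the theorem `m_X (h1 : StY) ... : StX` where the
hypotheses are the statements of the modules named in the docstring (uses ...).
-/

namespace Pool.Agent.Helper32.RA7

/-- MODULE BA.  Proof: comp a b = conv (comp a b) = comp (conv b) (conv a) = comp b a.  Monotonicity in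
the second argument from comp_sup and commutativity.  For the last part: b ⊓ comp a c = ⊥ is
b ≤ (comp a c)ᶜ, so comp a b ≤ comp a (comp a c)ᶜ = comp (conv a) (comp a c)ᶜ ≤ cᶜ by tarski.
comp a ⊥ ≤ comp (conv a) (comp a ⊤)ᶜ ≤ ⊤ᶜ = ⊥. -/
def StBA : Prop := ∀ (A : Type) [BooleanAlgebra A] (R : RelAlg A) (_ : R.Symm),
    (∀ a b : A, R.comp a b = R.comp b a) ∧ (∀ a : A, R.comp a ⊥ = ⊥) ∧
      (∀ a b c : A, b ≤ c → R.comp a b ≤ R.comp a c) ∧
      (∀ a b c : A, R.comp a (b ⊔ c) = R.comp a b ⊔ R.comp a c) ∧
      (∀ a b c : A, b ⊓ R.comp a c = ⊥ → c ⊓ R.comp a b = ⊥)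

/-- MODULE BB (uses BA).  The structure of the atoms.  R a b c is defined by c ≤ comp a b.
sw: commutativity.  Cycle law for atoms: c ≤ comp a b implies b ≤ comp a c (contrapositive: atoms b,
b ⊓ comp a c = ⊥ gives c ⊓ comp a b = ⊥).  rot: c ≤ comp a b = comp b a gives a ≤ comp b c.
idl: b ≤ comp idt a = a, atoms.  flex: s ≤ comp a b gives b ≤ comp a s = comp s a. -/
def StBB : Prop := ∀ (A : Type) [BooleanAlgebra A] (R : RelAlg A) (_ : R.Symm) (_ : R.Integral)
    (s : A) (_ : R.Flexible s),
    ∃ T : Str {a : A // IsAtom a}, T.e.1 = R.idt ∧ T.s.1 = s ∧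
      ∀ a b c : {a : A // IsAtom a}, T.R a b c ↔ c.1 ≤ R.comp a.1 b.1

/-- MODULE BC (uses BA).  In a finite Boolean algebra every element is a finite join of atoms;
composition distributes over finite joins in both arguments, and an atom below a finite join is below
one of the members. -/
def StBC : Prop := ∀ (A : Type) [BooleanAlgebra A] [Finite A] (R : RelAlg A) (_ : R.Symm)
    (c x y : A) (_ : IsAtom c), c ≤ R.comp x y ↔
      ∃ p q : A, IsAtom p ∧ IsAtom q ∧ p ≤ x ∧ q ≤ y ∧ c ≤ R.comp p q

/-- MODULE BD.  The generic network.  First pass to the quotient of X by the relation c0 x y = e (an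
equivalence relation since the triangles are allowed: R e a b iff a = b; c0 is well defined on the
quotient), i.e. to a proper closed network on Fin m.  Build c on the natural numbers by recursion: the
points below m carry the given network.  Fix a map n ↦ (F_n, t_n) from the naturals to
Finset ℕ × (finitely supported data: for instance lists of pairs in ℕ × O) which takes every value
infinitely often; a list [(x_1,p_1), ..., (x_r,p_r)] is a demand.  When the values among the points < n
are defined (n ≥ m): if all x_i < n, all p_i ≠ e and T.R p_i p_j (c x_i x_j) for all i, j, then put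
c n x_i = p_i (well defined: x_i = x_j gives T.R p_i p_j e, so p_i = p_j) and c n z = s for the other
z < n; otherwise put c n z = s for all z < n.  c n n = e and symmetric values.
Triangles are allowed: every triangle with a side s and no side e is allowed by flex (with sw, rot); a
triangle n, x_i, x_j is allowed by the condition; a triangle with two equal points is (e, a, a).
The demand given by p, d (k points): if some d i = e then z = p i works (T.R e (d j) (c (p i) (p j))
gives d j = c (p i) (p j)); otherwise it is met at some stage n larger than all p i and m.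
(If X is empty take m = 0.) -/
def StBD : Prop := ∀ (O : Type) [Finite O] (T : Str O) (X : Type) [Finite X] (c0 : X → X → O)
    (_ : Closed T c0),
    ∃ (c : ℕ → ℕ → O) (ι : X → ℕ), Closed T c ∧ (∀ x y : ℕ, c x y = T.e → x = y) ∧
      (∀ x y : X, c (ι x) (ι y) = c0 x y) ∧
      ∀ (k : ℕ) (p : Fin k → ℕ) (d : Fin k → O), (∀ i j, T.R (d i) (d j) (c (p i) (p j))) →
        ∃ z : ℕ, ∀ i, c z (p i) = d i

/-- MODULE BE (uses BC).  The representation.  rel a x y := (c x y).1 ≤ a.  inj: if rel a = rel b, then
a and b have the same atoms below them (every atom p is some c x z: apply the last hypothesis with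
x = y, since R e p p), so a = b (finite Boolean algebras are atomistic).  bot, sup, compl: atoms in a
Boolean algebra (an atom is below a ⊔ b iff below a or below b; below aᶜ iff not below a).
idt: (c x y).1 ≤ idt iff c x y = e iff x = y.  conv: symmetry of c and of R.  comp: BC gives atoms
p ≤ a, q ≤ b with c x y ≤ comp p q, i.e. T.R p q (c x y), hence T.R (c x y) p q, and a point z with
c x z = p and c y z = q.  Conversely T.R (c x z) (c z y) (c x y) and monotonicity (BA). -/
def StBE : Prop := ∀ (A : Type) [BooleanAlgebra A] [Finite A] (R : RelAlg A) (_ : R.Symm)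
    (T : Str {a : A // IsAtom a}) (_ : T.e.1 = R.idt)
    (_ : ∀ a b c : {a : A // IsAtom a}, T.R a b c ↔ c.1 ≤ R.comp a.1 b.1)
    (D : Type) [Nonempty D] (c : D → D → {a : A // IsAtom a}) (_ : Closed T c)
    (_ : ∀ x y : D, c x y = T.e → x = y)
    (_ : ∀ (x y : D) (p q : {a : A // IsAtom a}), T.R (c x y) p q →
      ∃ z : D, c x z = p ∧ c y z = q),
    ∃ ρ : Rep R D, ∀ (a : A) (x y : D), ρ.rel a x y ↔ (c x y).1 ≤ a

/-- MODULE BF (uses BC, BD, BE).  (←) BD and BE (the pair demand T.R (c x y) p q is the case k = 2 of
BD with points x, y and colours p, q: T.R p q (c x y), T.R q p (c y x), T.R p p e, T.R q q e).  (→) Let ρ, h be given.  For all x, y there is an atom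
p ≤ f x y with ρ.rel p (h x) (h y) (f x y is a finite join of atoms, ρ.sup and ρ.bot), and there is only
one atom p with ρ.rel p (h x) (h y) (two different atoms p, q: p ≤ qᶜ, ρ is monotone by ρ.sup, ρ.compl).
Call it c x y.  c x x = idt by ρ.idt, symmetry by ρ.conv and R.Symm, and for triangles: ρ.rel holds for
comp (c x y) (c y z) at (h x), (h z); if the atom c x z were not below it, it would be below its
complement, contradiction. -/
def StBF : Prop := ∀ (A : Type) [BooleanAlgebra A] [Finite A] (R : RelAlg A) (_ : R.Symm)
    (T : Str {a : A // IsAtom a}) (_ : T.e.1 = R.idt)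
    (_ : ∀ a b c : {a : A // IsAtom a}, T.R a b c ↔ c.1 ≤ R.comp a.1 b.1)
    (V : Type) [Finite V] (f : V → V → A),
    Sat R f ↔ ∃ c : V → V → {a : A // IsAtom a}, Closed T c ∧ ∀ x y : V, (c x y).1 ≤ f x y

/-- MODULE BG (uses BF).  The partial solutions in the sense of IsPartial on K are exactly the maps
(x, y) ↦ (τ x y).1 with CPart T F K τ (by BF for the network σ on the finite set K: if all σ x y are
atoms then a closed c with (c x y).1 ≤ σ x y satisfies (c x y).1 = σ x y).  So a refinement P in one
sense gives one in the other sense (image / preimage under (x, y) ↦ (τ x y).1), compatible with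
restrictions. -/
def StBG : Prop := ∀ (A : Type) [BooleanAlgebra A] [Finite A] (R : RelAlg A) (_ : R.Symm)
    (T : Str {a : A // IsAtom a}) (_ : T.e.1 = R.idt)
    (_ : ∀ a b c : {a : A // IsAtom a}, T.R a b c ↔ c.1 ≤ R.comp a.1 b.1)
    (V : Type) [Finite V] (f : V → V → A) (l k : ℕ),
    Accepts R f l k ↔ CAcc T (fun x y => {a | a.1 ≤ f x y}) l k

/-- MODULE BH.  If c is a solution, take for P L the set consisting of the restriction of c to L. -/
def StBH : Prop := ∀ (O : Type) (T : Str O) (X : Type) (F : X → X → Set O) (l k : ℕ)
    (_ : CSat T F), CAcc T F l k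

/-- MODULE BI (uses BF, BG, BH).  (→) Given a combinatorial network F on X let f x y be the join of the
(finitely many) atoms in F x y; then F x y = {a | a.1 ≤ f x y} (an atom below a finite join of atoms is
one of them).  CAcc gives Accepts (BG), Sat (hypothesis), and CSat (BF).  (←) Given f on V with
Accepts: CAcc by BG, CSat by hypothesis, Sat by BF.  Given Sat: CSat by BF, CAcc by BH, Accepts by BG. -/
def StBI : Prop := ∀ (A : Type) [BooleanAlgebra A] [Finite A] (R : RelAlg A) (_ : R.Symm)
    (T : Str {a : A // IsAtom a}) (_ : T.e.1 = R.idt)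
    (_ : ∀ a b c : {a : A // IsAtom a}, T.R a b c ↔ c.1 ≤ R.comp a.1 b.1) (l k : ℕ),
    Solves R l k ↔ CSolves T l k

/-- the combinatorial form of the main theorem (the rest of the project proves it) -/
def StCore : Prop := ∀ (O : Type) [Finite O] (T : Str O), (∃ l k : ℕ, l ≤ k ∧ CSolves T l k) →
    CSolves T 2 3

/-- MODULE BJ (uses BB, BI): StCore implies Q1; the theorem is
m_BJ (h1 : StBB) (h2 : StBI) (h3 : StCore) : Q1. -/
def StBJ : Prop := StCore → Q1

/-- MODULE IA (matrices).  A matrix A : Fin n → Fin n → ZMod 2 is called good for a row i0 if it is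
symmetric, has zero diagonal, and sum_j A i j = ch i for every i ≠ i0.
(1) For every i0 there is a good matrix: for i0 = the row 0 take the zero matrix (ch i = 0 for i ≠ 0),
for other i0 flip it as in (2).
(2) If A is good for i0 and i1 ≠ i0, then flipping the entries (i0,i1) and (i1,i0) (adding 1) gives a
matrix good for i1 which agrees with A in all rows different from i0, i1.  (The total sum of all
entries of a symmetric matrix with zero diagonal is 0 and the total charge is 1, so row i0 of A has sum
ch i0 + 1; after the flip row i0 has sum ch i0.) -/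
def StIA : Prop := ∀ (n : ℕ) (_ : 0 < n),
    (∀ i0 : Fin n, ∃ A : Fin n → Fin n → ZMod 2, (∀ i j, A i j = A j i) ∧ (∀ i, A i i = 0) ∧
      ∀ i, i ≠ i0 → ∑ j, A i j = ch i) ∧
    ∀ (A : Fin n → Fin n → ZMod 2) (i0 i1 : Fin n), (∀ i j, A i j = A j i) → (∀ i, A i i = 0) →
      (∀ i, i ≠ i0 → ∑ j, A i j = ch i) → i1 ≠ i0 →
      ∃ A' : Fin n → Fin n → ZMod 2, (∀ i j, A' i j = A' j i) ∧ (∀ i, A' i i = 0) ∧
        (∀ i, i ≠ i1 → ∑ j, A' i j = ch i) ∧ ∀ i j, i ≠ i0 → i ≠ i1 → A' i j = A i j

/-- MODULE IB (uses IA): THE INDUCTION THEOREM.  Let X be the disjoint union of the (Row n i → V)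
(a sigma type; it is finite).  Constraints: F (i,p) (i,q) = {col (p a) (q a) : a}; for i ≠ j,
F (i,p) (j,q) = {e} if there is x : ZMod 2 → V with p = (a ↦ x (a.1 j)) and q = (b ↦ x (b.1 i)), and
everything otherwise.  For a finite set K of points let rows(K) be the set of the first components.
P K := the set of all labellings σ of K for which there are i0 not in rows(K) and a matrix A good for i0
(see IA) with σ (i,p) (j,q) = col (p (A i)) (q (A j)) for (i,p), (j,q) in K; here the row A i is an
element of Row n i since i ≠ i0 (P K is defined for all finite K; only card K ≤ l matters).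
These labellings are closed (pull back of col) and satisfy the constraints (for i ≠ j and p = x ∘ (j),
q = x ∘ (i): p (A i) = x (A i j) = x (A j i) = q (A j), so the label is col u u = e).
P L is not empty for card L ≤ l ≤ k < n: there is i0 outside rows(L), and a good matrix.
Extension: L ⊆ K, card K ≤ k < n, σ in P L given by A, i0.  Choose i1 outside rows(K).  If i1 = i0 use A
itself.  Otherwise flip (IA (2)): A' is good for i1, and agrees with A on all rows in rows(L)
(i0, i1 are not in rows(L)).  The labelling of K given by A' is a partial solution on K, restricts to σ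
on L, and all its restrictions are in the sets P L'.
So F is accepted by the (l,k)-procedure; by hypothesis there is a closed labelling C of X with values in
F.  Put χ i p q := C (i,p) (i,q).  Minors: C (i, x ∘ (j)) (j, x ∘ (i)) = e, the same for y, and then
C (i, x ∘ (j)) (i, y ∘ (j)) = C (j, x ∘ (i)) (j, y ∘ (i)) since R e a b implies a = b. -/
def StIB : Prop := ∀ (O : Type) (T : Str O) (l k : ℕ) (_ : l ≤ k) (_ : CSolves T l k)
    (n : ℕ) (_ : k < n) (V : Type) [Finite V] (col : V → V → O) (_ : Closed T col),
    ∃ χ : (i : Fin n) → (Row n i → V) → (Row n i → V) → O,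
      (∀ i, Closed T (χ i)) ∧ (∀ i p q, ∃ a : Row n i, χ i p q = col (p a) (q a)) ∧
      ∀ (i j : Fin n) (x y : ZMod 2 → V), i ≠ j →
        χ i (fun a => x (a.1 j)) (fun a => y (a.1 j)) =
          χ j (fun b => x (b.1 i)) (fun b => y (b.1 i))

/-- MODULE IC: PAR.  For each i: the symmetric difference of the sets S_j = {a | a.1 j = 1} over
j ≠ i is the set of a with sum_j a j = 1, i.e. everything if ch i = 1 and nothing if ch i = 0 (v i of
the empty set is 0, by additivity).  So the sum over j ≠ i of v i (S_j) is ch i.  Summing over all i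
the left side is 0 (terms (i,j) and (j,i) are equal, in ZMod 2), the right side is 1. -/
def StIC : Prop := ∀ (n : ℕ) (_ : 0 < n) (v : (i : Fin n) → Set (Row n i) → ZMod 2)
    (_ : ∀ i S T, v i (symmDiff S T) = v i S + v i T) (_ : ∀ i, v i Set.univ = 1)
    (_ : ∀ i j : Fin n, i ≠ j → v i {a | a.1 j = 1} = v j {b | b.1 i = 1}), False

/-- MODULE ID (uses IB): the induction theorem for an infinite V, by compactness.  For a finite subset
F of V let χ_F be the maps given by IB for the subtype of F.  Let U be an ultrafilter on Finset V
containing all the sets {F | F0 ⊆ F} (for instance an ultrafilter finer than atTop).  For p, q let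
val_F be χ_F i p q (p, q viewed as maps into F) if all values of p and q are in F, and e otherwise.
O is finite, so there is a unique o with {F | val_F = o} in U; χ i p q := o.  Every required property
involves finitely many values of χ, each of which agrees with χ_F for U-almost all F (all the maps
involved have finite range: Row n i is finite). -/
def StID : Prop := ∀ (O : Type) [Finite O] (T : Str O) (l k : ℕ) (_ : l ≤ k) (_ : CSolves T l k)
    (n : ℕ) (_ : k < n) (V : Type) (col : V → V → O) (_ : Closed T col),
    ∃ χ : (i : Fin n) → (Row n i → V) → (Row n i → V) → O,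
      (∀ i, Closed T (χ i)) ∧ (∀ i p q, ∃ a : Row n i, χ i p q = col (p a) (q a)) ∧
      ∀ (i j : Fin n) (x y : ZMod 2 → V), i ≠ j →
        χ i (fun a => x (a.1 j)) (fun a => y (a.1 j)) =
          χ j (fun b => x (b.1 i)) (fun b => y (b.1 i))

end Pool.Agent.Helper32.RA7
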