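import Mathlib
import Pool.Agent.Helper32.RA7.St

set_option autoImplicit false

namespace Pool.Agent.Helper32.RA7

theorem m_BA : StBA := by
  intro A _ R hs
  have hcomm : ∀ a b : A, R.comp a b = R.comp b a := by
    intro a b
    have h := R.conv_comp a b
    rw [hs, hs, hs] at h
    exact h
  have hsupr : ∀ a b c : A, R.comp a (b ⊔ c) = R.comp a b ⊔ R.comp a c := by
    intro a b c
    rw [hcomm a (b ⊔ c), R.comp_sup, hcomm b a, hcomm c a]
  have hmono : ∀ a b c : A, b ≤ c → R.comp a b ≤ R.comp a c := by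
    intro a b c hbc
    have h := hsupr a b c
    rw [sup_eq_right.mpr hbc] at h
    rw [h]
    exact le_sup_left
  have htar : ∀ a b : A, R.comp a (R.comp a b)ᶜ ≤ bᶜ := by
    intro a b
    have h := R.tarski a b
    rw [hs a] at h
    exact sup_eq_right.mp h
  have hbot : ∀ a : A, R.comp a ⊥ = ⊥ := by
    intro a
    have h := htar a ⊤
    rw [compl_top] at h
    have h2 := hmono a ⊥ (R.comp a ⊤)ᶜ bot_le
    exact le_bot_iff.mp (h2.trans h)
  refine ⟨hcomm, hbot, hmono, hsupr, ?_⟩
  intro a b c h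
  have h1 : b ≤ (R.comp a c)ᶜ := by
    rw [← disjoint_iff] at h
    exact le_compl_iff_disjoint_right.mpr h
  have h2 : R.comp a b ≤ cᶜ := (hmono a _ _ h1).trans (htar a c)
  have h3 : Disjoint (R.comp a b) c := le_compl_iff_disjoint_right.mp h2
  exact disjoint_iff.mp h3.symm

end Pool.Agent.Helper32.RA7
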