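import Mathlib
import Pool.Agent.Helper32.RA7.St

set_option autoImplicit false

namespace Pool.Agent.Helper32.RA7

theorem m_BB (h1 : StBA) : StBB := by
  intro A _ R hs hi s hf
  obtain ⟨hcomm, -, -, -, hcyc⟩ := h1 A R hs
  have hcy : ∀ a b c : A, IsAtom b → IsAtom c → c ≤ R.comp a b → b ≤ R.comp a c := by
    intro a b c hb hc h
    by_contra hn
    have h2 : b ⊓ R.comp a c = ⊥ := by
      rcases hb.le_iff.mp (inf_le_left : b ⊓ R.comp a c ≤ b) with h3 | h3
      · exact h3
      · exact absurd (inf_eq_left.mp h3) hn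
    have h3 := hcyc a b c h2
    rw [inf_eq_left.mpr h] at h3
    exact hc.1 h3
  have hidt : ∀ a : A, R.comp R.idt a = a := by
    intro a
    rw [hcomm, R.comp_idt]
  refine ⟨{
    e := ⟨R.idt, hi⟩
    s := ⟨s, hf.1⟩
    R := fun a b c => c.1 ≤ R.comp a.1 b.1
    sw := ?_
    rot := ?_
    idl := ?_
    se := ?_
    flex := ?_ }, rfl, rfl, fun a b c => Iff.rfl⟩
  · intro a b c h
    show c.1 ≤ R.comp b.1 a.1
    rw [hcomm]
    exact h
  · intro a b c h
    show a.1 ≤ R.comp b.1 c.1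
    have h' : c.1 ≤ R.comp b.1 a.1 := by
      rw [hcomm]
      exact h
    exact hcy b.1 a.1 c.1 a.2 c.2 h'
  · intro a b
    show b.1 ≤ R.comp R.idt a.1 ↔ a = b
    rw [hidt]
    constructor
    · intro h
      rcases a.2.le_iff.mp h with h3 | h3
      · exact absurd h3 b.2.1
      · exact Subtype.ext h3.symm
    · intro h
      rw [h]
  · intro h
    exact hf.2.1 (congrArg Subtype.val h)
  · intro a b ha hb
    show b.1 ≤ R.comp s a.1
    have ha' : a.1 ≠ R.idt := fun h => ha (Subtype.ext h)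
    have hb' : b.1 ≠ R.idt := fun h => hb (Subtype.ext h)
    have h := hf.2.2 a.1 b.1 a.2 b.2 ha' hb'
    rw [hcomm]
    exact hcy a.1 b.1 s b.2 hf.1 h

end Pool.Agent.Helper32.RA7
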