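import Mathlib
import Pool.Agent.Helper32.RA7.St

set_option autoImplicit false

/-!
# MP_65b7ad_lc, project RA7, module BC: composition and atoms
-/

namespace Pool.Agent.Helper32.RA7

private theorem atom_le_sup_BC {A : Type} [BooleanAlgebra A] {c a b : A} (hc : IsAtom c)
    (h : c ≤ a ⊔ b) : c ≤ a ∨ c ≤ b := by
  by_cases h1 : c ≤ a
  · exact Or.inl h1
  · right
    have h2 : c ⊓ a = ⊥ := hc.2 _ (lt_of_le_of_ne inf_le_left fun h' => h1 (inf_eq_left.1 h'))
    have h3 : c ⊓ (a ⊔ b) = c ⊓ b := by rw [inf_sup_left, h2, bot_sup_eq]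
    rw [inf_eq_left.2 h] at h3
    exact inf_eq_left.1 h3.symm

private theorem split_BC {A : Type} [BooleanAlgebra A] [Finite A] (F : A → A)
    (hbot : F ⊥ = ⊥) (hsup : ∀ a b : A, F (a ⊔ b) = F a ⊔ F b) (c : A) (hc : IsAtom c) :
    ∀ x : A, c ≤ F x → ∃ p : A, IsAtom p ∧ p ≤ x ∧ c ≤ F p := by
  intro x
  induction x using WellFoundedLT.induction with
  | ind x ih =>
    intro hx
    rcases eq_bot_or_exists_atom_le x with h0 | ⟨p, hp, hpx⟩
    · rw [h0, hbot] at hx
      exact absurd (le_bot_iff.1 hx) hc.1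
    · have h1 : p ⊔ x \ p = x := sup_sdiff_cancel_right hpx
      rw [← h1, hsup] at hx
      rcases atom_le_sup_BC hc hx with h2 | h2
      · exact ⟨p, hp, hpx, h2⟩
      · have h3 : x \ p < x := by
          refine lt_of_le_of_ne sdiff_le fun h' => hp.1 ?_
          have h4 : Disjoint p (x \ p) := disjoint_sdiff_self_right
          rw [h'] at h4
          exact (disjoint_self.1 (h4.mono_right hpx))
        obtain ⟨q, hq, hqx, h5⟩ := ih _ h3 h2
        exact ⟨q, hq, hqx.trans sdiff_le, h5⟩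

theorem m_BC (h1 : StBA) : StBC := by
  intro A _ _ R hR c x y hc
  obtain ⟨hcomm, hbot, hmono, hsup, -⟩ := h1 A R hR
  constructor
  · intro h
    obtain ⟨q, hq, hqy, h2⟩ := split_BC (R.comp x) (hbot x) (hsup x) c hc y h
    rw [hcomm] at h2
    obtain ⟨p, hp, hpx, h3⟩ := split_BC (R.comp q) (hbot q) (hsup q) c hc x h2
    rw [hcomm] at h3
    exact ⟨p, q, hp, hq, hpx, hqy, h3⟩
  · rintro ⟨p, q, -, -, hpx, hqy, h⟩
    refine h.trans ((hmono p q y hqy).trans ?_)
    rw [hcomm p y, hcomm x y]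
    exact hmono y p x hpx

end Pool.Agent.Helper32.RA7
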