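import Mathlib
import Pool.Agent.Helper32.RA7.St

set_option autoImplicit false

/-!
# Module BD: the generic network
-/

namespace Pool.Agent.Helper32.RA7

/-- closed and proper below `n` -/
structure Inv_BD {O : Type} (T : Str O) (C : ℕ → ℕ → O) (n : ℕ) : Prop where
  diag : ∀ x, x < n → C x x = T.e
  symm : ∀ x y, x < n → y < n → C x y = C y x
  tri : ∀ x y z, x < n → y < n → z < n → T.R (C x y) (C y z) (C x z)
  prop : ∀ x y, x < n → y < n → C x y = T.e → x = y

open Classical in
/-- one point extension -/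
noncomputable def ext_BD {O : Type} (T : Str O) (C : ℕ → ℕ → O) (n : ℕ) (v : ℕ → O) : ℕ → ℕ → O :=
  fun x y => if x = y then T.e else if x = n then v y else if y = n then v x else C x y

theorem raa_BD {O : Type} (T : Str O) (a : O) : T.R T.e a a ∧ T.R a T.e a ∧ T.R a a T.e := by
  have h := (T.idl a a).2 rfl
  exact ⟨h, T.sw _ _ _ h, T.rot _ _ _ h⟩

theorem flex_BD {O : Type} (T : Str O) {a b : O} (ha : a ≠ T.e) (hb : b ≠ T.e) :
    T.R T.s a b ∧ T.R a T.s b := by
  have h := T.flex a b ha hb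
  exact ⟨h, T.sw _ _ _ h⟩

theorem ext_inv_BD {O : Type} {T : Str O} {C : ℕ → ℕ → O} {n : ℕ} (h : Inv_BD T C n) {v : ℕ → O}
    (v1 : ∀ z, v z ≠ T.e) (v2 : ∀ y z, y < n → z < n → T.R (v y) (v z) (C y z)) :
    Inv_BD T (ext_BD T C n v) (n + 1) := by
  refine ⟨fun x _ => by simp [ext_BD], fun x y hx hy => ?_, fun x y z hx hy hz => ?_,
    fun x y hx hy hxy => ?_⟩
  · unfold ext_BD
    by_cases h1 : x = y
    · simp [h1]
    · rw [if_neg h1, if_neg (Ne.symm h1)]
      by_cases h2 : x = n
      · have h3 : y ≠ n := fun h => h1 (h2.trans h.symm)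
        rw [if_pos h2, if_neg h3, if_pos h2]
      · rw [if_neg h2]
        by_cases h3 : y = n
        · rw [if_pos h3, if_pos h3]
        · rw [if_neg h3, if_neg h3, if_neg h2]
          exact h.symm x y (by omega) (by omega)
  · have esym : ∀ a b, ext_BD T C n v a b = ext_BD T C n v b a ∨ (a ≠ n ∧ b ≠ n) := by
      intro a b
      unfold ext_BD
      by_cases h1 : a = b
      · left; simp [h1]
      · by_cases h2 : a = n
        · left
          have h3 : b ≠ n := fun h => h1 (h2.trans h.symm)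
          rw [if_neg h1, if_neg (Ne.symm h1), if_pos h2, if_neg h3, if_pos h2]
        · by_cases h3 : b = n
          · left
            rw [if_neg h1, if_neg (Ne.symm h1), if_neg h2, if_pos h3, if_pos h3]
          · exact Or.inr ⟨h2, h3⟩
    by_cases hxy : x = y
    · subst hxy
      have : ext_BD T C n v x x = T.e := by simp [ext_BD]
      rw [this]
      exact (raa_BD T _).1
    by_cases hyz : y = z
    · subst hyz
      have : ext_BD T C n v y y = T.e := by simp [ext_BD]
      rw [this]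
      exact (raa_BD T _).2.1
    by_cases hxz : x = z
    · subst hxz
      have e1 : ext_BD T C n v x x = T.e := by simp [ext_BD]
      have e2 : ext_BD T C n v x y = ext_BD T C n v y x := by
        rcases esym x y with h3 | ⟨h3, h4⟩
        · exact h3
        · unfold ext_BD
          rw [if_neg hxy, if_neg (Ne.symm hxy), if_neg h3, if_neg h4, if_neg h4, if_neg h3]
          exact h.symm x y (by omega) (by omega)
      rw [e1, e2]
      exact (raa_BD T _).2.2
    by_cases h1 : x = n
    · have hy' : y < n := by omega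
      have hz' : z < n := by omega
      unfold ext_BD
      rw [if_neg hxy, if_neg hyz, if_neg hxz, if_pos h1, if_pos h1, if_neg (by omega),
        if_neg (by omega)]
      exact T.rot _ _ _ (T.sw _ _ _ (v2 y z hy' hz'))
    by_cases h2 : y = n
    · have hx' : x < n := by omega
      have hz' : z < n := by omega
      unfold ext_BD
      rw [if_neg hxy, if_neg hyz, if_neg hxz, if_neg h1, if_pos h2, if_pos h2, if_neg h1,
        if_neg (by omega)]
      exact v2 x z hx' hz'
    by_cases h3 : z = n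
    · have hx' : x < n := by omega
      have hy' : y < n := by omega
      unfold ext_BD
      rw [if_neg hxy, if_neg hyz, if_neg hxz, if_neg h1, if_neg h2, if_neg h2, if_pos h3, if_neg h1,
        if_pos h3]
      exact T.sw _ _ _ (T.rot _ _ _ (v2 x y hx' hy'))
    · unfold ext_BD
      rw [if_neg hxy, if_neg hyz, if_neg hxz, if_neg h1, if_neg h2, if_neg h2, if_neg h3, if_neg h1,
        if_neg h3]
      exact h.tri x y z (by omega) (by omega) (by omega)
  · by_contra hne
    unfold ext_BD at hxy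
    rw [if_neg hne] at hxy
    by_cases h1 : x = n
    · rw [if_pos h1] at hxy
      exact v1 _ hxy
    · rw [if_neg h1] at hxy
      by_cases h2 : y = n
      · rw [if_pos h2] at hxy
        exact v1 _ hxy
      · rw [if_neg h2] at hxy
        exact hne (h.prop x y (by omega) (by omega) hxy)

/-- the demand `ℓ` is admissible at stage `n` -/
def Val_BD {O : Type} (T : Str O) (C : ℕ → ℕ → O) (n : ℕ) (l : List (ℕ × O)) : Prop :=
  (∀ a ∈ l, a.1 < n ∧ a.2 ≠ T.e) ∧ ∀ a ∈ l, ∀ b ∈ l, T.R a.2 b.2 (C a.1 b.1)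

open Classical in
/-- the new row -/
noncomputable def row_BD {O : Type} (T : Str O) (C : ℕ → ℕ → O) (n : ℕ) (l : List (ℕ × O)) (z : ℕ) : O :=
  if h : Val_BD T C n l ∧ ∃ p, (z, p) ∈ l then h.2.choose else T.s

theorem row_cases_BD {O : Type} (T : Str O) (C : ℕ → ℕ → O) (n : ℕ) (l : List (ℕ × O)) (z : ℕ) :
    row_BD T C n l z = T.s ∨ (Val_BD T C n l ∧ (z, row_BD T C n l z) ∈ l) := by
  unfold row_BD
  split_ifs with h
  · exact Or.inr ⟨h.1, h.2.choose_spec⟩
  · exact Or.inl rfl

theorem row_ne_BD {O : Type} (T : Str O) (C : ℕ → ℕ → O) (n : ℕ) (l : List (ℕ × O)) (z : ℕ) :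
    row_BD T C n l z ≠ T.e := by
  rcases row_cases_BD T C n l z with h | ⟨h1, h2⟩
  · rw [h]; exact T.se
  · exact (h1.1 _ h2).2

theorem row_tri_BD {O : Type} {T : Str O} {C : ℕ → ℕ → O} {n : ℕ} (h : Inv_BD T C n)
    (l : List (ℕ × O)) (y z : ℕ) (hy : y < n) (hz : z < n) :
    T.R (row_BD T C n l y) (row_BD T C n l z) (C y z) := by
  by_cases hyz : y = z
  · subst hyz
    rw [h.diag y hy]
    exact (raa_BD T _).2.2
  · have hC : C y z ≠ T.e := fun h' => hyz (h.prop y z hy hz h')
    rcases row_cases_BD T C n l y with h1 | ⟨h1, h2⟩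
    · rw [h1]
      exact (flex_BD T (row_ne_BD T C n l z) hC).1
    · rcases row_cases_BD T C n l z with h3 | ⟨_, h4⟩
      · rw [h3]
        exact (flex_BD T (row_ne_BD T C n l y) hC).2
      · exact h1.2 _ h2 _ h4

theorem row_eq_BD {O : Type} {T : Str O} {C : ℕ → ℕ → O} {n : ℕ} (h : Inv_BD T C n)
    {l : List (ℕ × O)} (hl : Val_BD T C n l) {z : ℕ} {p : O} (hp : (z, p) ∈ l) :
    row_BD T C n l z = p := by
  have hex : Val_BD T C n l ∧ ∃ p, (z, p) ∈ l := ⟨hl, p, hp⟩
  have h1 : (z, row_BD T C n l z) ∈ l := by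
    unfold row_BD
    rw [dif_pos hex]
    exact hex.2.choose_spec
  have h2 := hl.2 _ h1 _ hp
  simp only at h2
  rw [h.diag z (hl.1 _ hp).1] at h2
  exact (T.idl _ _).1 (T.rot _ _ _ (T.rot _ _ _ h2))

/-- the stages -/
noncomputable def st_BD {O : Type} (T : Str O) (C0 : ℕ → ℕ → O) (m : ℕ) (dem : ℕ → List (ℕ × O)) :
    ℕ → ℕ → ℕ → O
  | 0 => C0
  | k + 1 => ext_BD T (st_BD T C0 m dem k) (m + k) (row_BD T (st_BD T C0 m dem k) (m + k) (dem k))

theorem st_inv_BD {O : Type} {T : Str O} {C0 : ℕ → ℕ → O} {m : ℕ} (dem : ℕ → List (ℕ × O))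
    (h : Inv_BD T C0 m) (k : ℕ) : Inv_BD T (st_BD T C0 m dem k) (m + k) := by
  induction k with
  | zero => exact h
  | succ k ih =>
    exact ext_inv_BD ih (fun z => row_ne_BD T _ _ _ z) (fun y z hy hz => row_tri_BD ih _ y z hy hz)

theorem st_succ_BD {O : Type} {T : Str O} {C0 : ℕ → ℕ → O} {m : ℕ} (dem : ℕ → List (ℕ × O))
    (h : Inv_BD T C0 m) (k : ℕ) {x y : ℕ} (hx : x < m + k) (hy : y < m + k) :
    st_BD T C0 m dem (k + 1) x y = st_BD T C0 m dem k x y := by
  change ext_BD T (st_BD T C0 m dem k) (m + k) _ x y = _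
  unfold ext_BD
  by_cases hxy : x = y
  · subst hxy
    rw [if_pos rfl, (st_inv_BD dem h k).diag x hx]
  · rw [if_neg hxy, if_neg (by omega), if_neg (by omega)]

theorem st_stable_BD {O : Type} {T : Str O} {C0 : ℕ → ℕ → O} {m : ℕ} (dem : ℕ → List (ℕ × O))
    (h : Inv_BD T C0 m) {k k' : ℕ} (hk : k ≤ k') {x y : ℕ} (hx : x < m + k) (hy : y < m + k) :
    st_BD T C0 m dem k' x y = st_BD T C0 m dem k x y := by
  induction k', hk using Nat.le_induction with
  | base => rfl
  | succ k' hk' ih =>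
    rw [st_succ_BD dem h k' (by omega) (by omega), ih]

/-- the generic network for a given base -/
theorem base_BD {O : Type} [Finite O] {T : Str O} {C0 : ℕ → ℕ → O} {m : ℕ} (h : Inv_BD T C0 m) :
    ∃ c : ℕ → ℕ → O, Closed T c ∧ (∀ x y : ℕ, c x y = T.e → x = y) ∧
      (∀ x y : ℕ, x < m → y < m → c x y = C0 x y) ∧
      ∀ (k : ℕ) (p : Fin k → ℕ) (d : Fin k → O), (∀ i j, T.R (d i) (d j) (c (p i) (p j))) →
        ∃ z : ℕ, ∀ i, c z (p i) = d i := by
  obtain ⟨f, hf⟩ := exists_surjective_nat (List (ℕ × O))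
  set dem : ℕ → List (ℕ × O) := fun n => f n.unpair.1 with hdem
  have hdem2 : ∀ (l : List (ℕ × O)) (N : ℕ), ∃ n, N ≤ n ∧ dem n = l := by
    intro l N
    obtain ⟨a, ha⟩ := hf l
    refine ⟨Nat.pair a N, Nat.right_le_pair a N, ?_⟩
    rw [hdem]
    simp [ha]
  set c : ℕ → ℕ → O := fun x y => st_BD T C0 m dem (max x y + 1) x y with hc
  have hcs : ∀ (k x y : ℕ), x < m + k → y < m + k → c x y = st_BD T C0 m dem k x y := by
    intro k x y hx hy
    rw [hc]
    simp only
    rcases le_total (max x y + 1) k with h1 | h1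
    · exact (st_stable_BD dem h h1 (by omega) (by omega)).symm
    · exact st_stable_BD dem h h1 hx hy
  have hci : ∀ k, Inv_BD T c (m + k) := by
    intro k
    have h1 := st_inv_BD dem h k
    refine ⟨fun x hx => ?_, fun x y hx hy => ?_, fun x y z hx hy hz => ?_, fun x y hx hy hxy => ?_⟩
    · rw [hcs k x x hx hx]; exact h1.diag x hx
    · rw [hcs k x y hx hy, hcs k y x hy hx]; exact h1.symm x y hx hy
    · rw [hcs k x y hx hy, hcs k y z hy hz, hcs k x z hx hz]; exact h1.tri x y z hx hy hz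
    · rw [hcs k x y hx hy] at hxy
      exact h1.prop x y hx hy hxy
  refine ⟨c, ⟨fun x => ?_, fun x y => ?_, fun x y z => ?_⟩, fun x y hxy => ?_, fun x y hx hy => ?_, ?_⟩
  · exact (hci (x + 1)).diag x (by omega)
  · exact (hci (x + y + 1)).symm x y (by omega) (by omega)
  · exact (hci (x + y + z + 1)).tri x y z (by omega) (by omega) (by omega)
  · exact (hci (x + y + 1)).prop x y (by omega) (by omega) hxy
  · exact hcs 0 x y (by omega) (by omega)
  · intro k p d hd
    by_cases he : ∃ i, d i = T.e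
    · obtain ⟨i, hi⟩ := he
      refine ⟨p i, fun j => ?_⟩
      have h1 := hd i j
      rw [hi] at h1
      exact ((T.idl _ _).1 h1).symm
    · push Not at he
      obtain ⟨N, hN⟩ : ∃ N, ∀ i, p i < N :=
        ⟨Finset.univ.sup p + 1, fun i => Nat.lt_succ_of_le (Finset.le_sup (Finset.mem_univ i))⟩
      obtain ⟨n, hn, hl⟩ := hdem2 (List.ofFn (fun i => (p i, d i))) N
      have hpn : ∀ i, p i < m + n := fun i => by have := hN i; omega
      have hval : Val_BD T (st_BD T C0 m dem n) (m + n) (dem n) := by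
        rw [hl]
        constructor
        · intro a ha
          obtain ⟨i, rfl⟩ := (List.mem_ofFn' _ _).1 ha
          exact ⟨hpn i, he i⟩
        · intro a ha b hb
          obtain ⟨i, rfl⟩ := (List.mem_ofFn' _ _).1 ha
          obtain ⟨j, rfl⟩ := (List.mem_ofFn' _ _).1 hb
          have h1 := hd i j
          rw [hcs n _ _ (hpn i) (hpn j)] at h1
          exact h1
      refine ⟨m + n, fun i => ?_⟩
      have h1 : c (m + n) (p i) = st_BD T C0 m dem (n + 1) (m + n) (p i) :=
        hcs (n + 1) _ _ (by omega) (by have := hpn i; omega)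
      rw [h1]
      change ext_BD T (st_BD T C0 m dem n) (m + n) _ (m + n) (p i) = _
      unfold ext_BD
      rw [if_neg (by have := hpn i; omega), if_pos rfl]
      apply row_eq_BD (st_inv_BD dem h n) hval
      rw [hl]
      exact (List.mem_ofFn' _ _).2 ⟨i, rfl⟩

theorem m_BD : StBD := by
  classical
  intro O _ T X _ c0 hc0
  obtain ⟨h1, h2, h3⟩ := hc0
  have hwd : ∀ x x' y, c0 x x' = T.e → c0 x y = c0 x' y := by
    intro x x' y he
    have h4 := h3 x x' y
    rw [he] at h4
    exact ((T.idl _ _).1 h4).symm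
  let st : Setoid X :=
    { r := fun x y => c0 x y = T.e
      iseqv :=
        { refl := h1
          symm := fun {x y} h => by rw [h2 y x]; exact h
          trans := fun {x y z} hxy hyz => by rw [hwd x y z hxy]; exact hyz } }
  have hfin : Finite (Quotient st) := inferInstance
  obtain ⟨m, ⟨φ⟩⟩ := Finite.exists_equiv_fin (Quotient st)
  let c1 : Quotient st → Quotient st → O := fun a b => c0 a.out b.out
  have hc1 : ∀ x y : X, c1 (Quotient.mk st x) (Quotient.mk st y) = c0 x y := by
    intro x y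
    have e1 : c0 (Quotient.mk st x).out x = T.e := Quotient.mk_out (s := st) x
    have e2 : c0 (Quotient.mk st y).out y = T.e := Quotient.mk_out (s := st) y
    change c0 _ _ = _
    rw [hwd _ x _ e1, h2 x, hwd _ y _ e2, h2 y]
  let C0 : ℕ → ℕ → O := fun x y => if h : x < m ∧ y < m then
    c1 (φ.symm ⟨x, h.1⟩) (φ.symm ⟨y, h.2⟩) else T.e
  have hC0 : ∀ x y (hx : x < m) (hy : y < m), C0 x y = c1 (φ.symm ⟨x, hx⟩) (φ.symm ⟨y, hy⟩) := by
    intro x y hx hy
    exact dif_pos ⟨hx, hy⟩
  have hinv : Inv_BD T C0 m := by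
    refine ⟨fun x hx => ?_, fun x y hx hy => ?_, fun x y z hx hy hz => ?_, fun x y hx hy hxy => ?_⟩
    · rw [hC0 x x hx hx]; exact h1 _
    · rw [hC0 x y hx hy, hC0 y x hy hx]; exact h2 _ _
    · rw [hC0 x y hx hy, hC0 y z hy hz, hC0 x z hx hz]; exact h3 _ _ _
    · rw [hC0 x y hx hy] at hxy
      have h4 : φ.symm ⟨x, hx⟩ = φ.symm ⟨y, hy⟩ := by
        rw [← Quotient.out_equiv_out]
        exact hxy
      have h5 := φ.symm.injective h4
      exact congrArg Fin.val h5
  obtain ⟨c, hc, hp, hb, hd⟩ := base_BD hinv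
  refine ⟨c, fun x => (φ (Quotient.mk st x)).1, hc, hp, fun x y => ?_, hd⟩
  rw [hb _ _ (φ _).2 (φ _).2, hC0 _ _ (φ _).2 (φ _).2]
  simp only [Fin.eta, Equiv.symm_apply_apply]
  exact hc1 x y

end Pool.Agent.Helper32.RA7
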