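import Mathlib
import Pool.Agent.Helper32.RA7.St

set_option autoImplicit false

/-!
# Module BE: the representation
-/

namespace Pool.Agent.Helper32.RA7

theorem atom_sup_BE {A : Type} [BooleanAlgebra A] {p a b : A} (hp : IsAtom p) :
    p ≤ a ⊔ b ↔ p ≤ a ∨ p ≤ b := by
  constructor
  · intro h
    by_cases h1 : p ≤ a
    · exact Or.inl h1
    · right
      have h2 : p ⊓ a = ⊥ := by
        rcases hp.le_iff.1 (inf_le_left : p ⊓ a ≤ p) with h3 | h3
        · exact h3
        · exact absurd (inf_eq_left.1 h3) h1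
      have h4 : p ⊓ (a ⊔ b) = p := inf_eq_left.2 h
      rw [inf_sup_left, h2, bot_sup_eq] at h4
      exact inf_eq_left.1 h4
  · rintro (h | h)
    · exact h.trans le_sup_left
    · exact h.trans le_sup_right

theorem atom_compl_BE {A : Type} [BooleanAlgebra A] {p a : A} (hp : IsAtom p) :
    p ≤ aᶜ ↔ ¬ p ≤ a := by
  constructor
  · intro h1 h2
    apply hp.1
    rw [eq_bot_iff, ← inf_compl_eq_bot (a := a)]
    exact le_inf h2 h1
  · intro h
    have h1 : p ≤ a ⊔ aᶜ := by rw [sup_compl_eq_top]; exact le_top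
    exact ((atom_sup_BE hp).1 h1).resolve_left h

theorem atom_eq_BE {A : Type} [BooleanAlgebra A] {p q : A} (hp : IsAtom p) (hq : IsAtom q)
    (h : p ≤ q) : p = q :=
  (hq.le_iff.1 h).resolve_left hp.1

theorem m_BE (h1 : StBA) (h2 : StBC) : StBE := by
  intro A _ _ R hS T he hR D _ c hc hprop hext
  obtain ⟨hcomm, -, hmono, -, -⟩ := h1 A R hS
  obtain ⟨c1, c2, c3⟩ := hc
  refine ⟨{ rel := fun a x y => (c x y).1 ≤ a
            inj := ?_
            bot := ?_
            sup := ?_
            compl := ?_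
            idt := ?_
            conv := ?_
            comp := ?_ }, fun a x y => Iff.rfl⟩
  · intro a b hab
    rw [BooleanAlgebra.eq_iff_atom_le_iff]
    intro p hp
    obtain ⟨x⟩ := (inferInstance : Nonempty D)
    have hT : T.R (c x x) ⟨p, hp⟩ ⟨p, hp⟩ := by
      rw [c1 x]
      exact (T.idl _ _).2 rfl
    obtain ⟨z, hz, -⟩ := hext x x _ _ hT
    have h3 := congrFun (congrFun hab x) z
    simp only [hz] at h3
    exact iff_of_eq h3
  · intro x y h
    exact (c x y).2.1 (le_bot_iff.1 h)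
  · intro a b x y
    exact atom_sup_BE (c x y).2
  · intro a x y
    rw [atom_compl_BE (c x y).2]
    exact ⟨fun h => ⟨le_top, h⟩, fun h => h.2⟩
  · intro x y
    constructor
    · intro h
      apply hprop
      rw [← he] at h
      exact Subtype.ext (atom_eq_BE (c x y).2 T.e.2 h)
    · rintro rfl
      rw [c1 x, he]
  · intro a x y
    rw [hS a, c2 x y]
  · intro a b x y
    constructor
    · intro h
      obtain ⟨p, q, hp, hq, hpa, hqb, hpq⟩ := (h2 A R hS (c x y).1 a b (c x y).2).1 h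
      have h3 : T.R ⟨p, hp⟩ ⟨q, hq⟩ (c x y) := (hR _ _ _).2 hpq
      have h4 : T.R (c x y) ⟨p, hp⟩ ⟨q, hq⟩ := T.rot _ _ _ (T.rot _ _ _ h3)
      obtain ⟨z, hz1, hz2⟩ := hext x y _ _ h4
      refine ⟨z, ?_, ?_⟩
      · rw [hz1]; exact hpa
      · rw [c2 z y, hz2]; exact hqb
    · rintro ⟨z, hz1, hz2⟩
      have h3 := (hR _ _ _).1 (c3 x z y)
      refine h3.trans ?_
      refine (hmono _ _ _ hz2).trans ?_
      rw [hcomm, hcomm a b]
      exact hmono _ _ _ hz1

end Pool.Agent.Helper32.RA7
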