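import Mathlib
import Pool.Agent.Helper32.RA7.St

/-!
# RA7, module BF: satisfiability in a representation is satisfiability by a closed labelling
-/

set_option autoImplicit false

namespace Pool.Agent.Helper32.RA7

private theorem mono_BF {A : Type} [BooleanAlgebra A] {R : RelAlg A} {D : Type} (ρ : Rep R D)
    {a b : A} (h : a ≤ b) {x y : D} (hx : ρ.rel a x y) : ρ.rel b x y := by
  rw [← sup_eq_right.2 h]
  exact (ρ.sup a b x y).2 (Or.inl hx)

private theorem atom_exists_BF {A : Type} [BooleanAlgebra A] [Finite A] {R : RelAlg A} {D : Type}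
    (ρ : Rep R D) {a : A} {x y : D} (h : ρ.rel a x y) :
    ∃ p : A, IsAtom p ∧ p ≤ a ∧ ρ.rel p x y := by
  obtain ⟨b, hb⟩ := (Set.toFinite {b : A | b ≤ a ∧ ρ.rel b x y}).exists_minimal ⟨a, le_rfl, h⟩
  refine ⟨b, ⟨?_, ?_⟩, hb.prop.1, hb.prop.2⟩
  · intro h0
    have := hb.prop.2
    rw [h0] at this
    exact ρ.bot x y this
  · intro c hc
    have h1 : ρ.rel (c ⊔ b \ c) x y := by
      rw [sup_sdiff_cancel_right hc.le]; exact hb.prop.2
    rcases (ρ.sup _ _ x y).1 h1 with h2 | h2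
    · exact absurd (hb.le_of_le ⟨hc.le.trans hb.prop.1, h2⟩ hc.le) (not_le_of_gt hc)
    · have h3 : b ≤ b \ c := hb.le_of_le ⟨sdiff_le.trans hb.prop.1, h2⟩ sdiff_le
      have h4 : Disjoint c b := (le_sdiff.1 h3).2.symm
      exact h4.eq_bot_of_le hc.le

private theorem atom_le_BF {A : Type} [BooleanAlgebra A] {R : RelAlg A} {D : Type} (ρ : Rep R D)
    {p a : A} (hp : IsAtom p) {x y : D} (h : ρ.rel p x y) (ha : ρ.rel a x y) : p ≤ a := by
  by_contra hn
  have hd : Disjoint p a := hp.not_le_iff_disjoint.1 hn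
  have h1 : p ≤ aᶜ := hd.le_compl_right
  exact ((ρ.compl a x y).1 (mono_BF ρ h1 h)).2 ha

private theorem atom_unique_BF {A : Type} [BooleanAlgebra A] {R : RelAlg A} {D : Type}
    (ρ : Rep R D) {p q : A} (hp : IsAtom p) (hq : IsAtom q) {x y : D} (h : ρ.rel p x y)
    (h' : ρ.rel q x y) : p = q := by
  have h1 := atom_le_BF ρ hp h h'
  rcases hq.le_iff.1 h1 with h2 | h2
  · exact absurd h2 hp.1
  · exact h2

theorem m_BF (_ : StBC) (h2 : StBD) (h3 : StBE) : StBF := by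
  intro A _ _ R hs T he hR V _ f
  constructor
  · rintro ⟨D, ρ, h, hf⟩
    have hex : ∀ x y : V, ∃ p : {a : A // IsAtom a}, p.1 ≤ f x y ∧ ρ.rel p.1 (h x) (h y) := by
      intro x y
      obtain ⟨p, hp, h1, h2⟩ := atom_exists_BF ρ (hf x y)
      exact ⟨⟨p, hp⟩, h1, h2⟩
    choose c hc1 hc2 using hex
    refine ⟨c, ⟨?_, ?_, ?_⟩, hc1⟩
    · intro x
      apply Subtype.ext
      refine atom_unique_BF ρ (c x x).2 T.e.2 (hc2 x x) ?_
      rw [he]
      exact (ρ.idt _ _).2 rfl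
    · intro x y
      apply Subtype.ext
      refine atom_unique_BF ρ (c x y).2 (c y x).2 (hc2 x y) ?_
      have := (ρ.conv (c y x).1 (h x) (h y)).2 (hc2 y x)
      rwa [hs] at this
    · intro x y z
      rw [hR]
      exact atom_le_BF ρ (c x z).2 (hc2 x z) ((ρ.comp _ _ _ _).2 ⟨h y, hc2 x y, hc2 y z⟩)
  · rintro ⟨c, hc, hcf⟩
    obtain ⟨c', ι, hc', hpr, hext, hdem⟩ := h2 {a : A // IsAtom a} T V c hc
    have hrr : ∀ p : {a : A // IsAtom a}, T.R p p T.e := fun p =>
      T.rot _ _ _ ((T.idl p p).2 rfl)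
    obtain ⟨ρ, hρ⟩ := h3 A R hs T he hR ℕ c' hc' hpr (by
      intro x y p q hpq
      have e1 : T.R p q (c' x y) := T.rot _ _ _ hpq
      obtain ⟨z, hz⟩ := hdem 2 ![x, y] ![p, q] (by
        intro i j
        fin_cases i <;> fin_cases j
        · show T.R p p (c' x x)
          rw [hc'.1]; exact hrr p
        · exact e1
        · show T.R q p (c' y x)
          rw [hc'.2.1 y x]; exact T.sw _ _ _ e1
        · show T.R q q (c' y y)
          rw [hc'.1]; exact hrr q)
      refine ⟨z, ?_, ?_⟩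
      · rw [hc'.2.1 x z]; exact hz 0
      · rw [hc'.2.1 y z]; exact hz 1)
    refine ⟨ℕ, ρ, ι, fun x y => ?_⟩
    rw [hρ, hext]
    exact hcf x y

end Pool.Agent.Helper32.RA7
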