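import Mathlib
import Pool.Agent.Helper32.RA7.St

set_option autoImplicit false

namespace Pool.Agent.Helper32.RA7

/-- the underlying labelling with values in the algebra -/
def up_BG {A : Type} [BooleanAlgebra A] {X : Type} (τ : X → X → {a : A // IsAtom a}) :
    X → X → A := fun x y => (τ x y).1

theorem up_inj_BG {A : Type} [BooleanAlgebra A] {X : Type} (τ τ' : X → X → {a : A // IsAtom a})
    (h : up_BG τ = up_BG τ') : τ = τ' := by
  funext x y
  exact Subtype.ext (congrFun (congrFun h x) y)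

theorem res_up_BG {A : Type} [BooleanAlgebra A] {V : Type} {L K : Finset V} (h : L ⊆ K)
    (τ : K → K → {a : A // IsAtom a}) : res h (up_BG τ) = up_BG (res h τ) := rfl

theorem part_BG (h1 : StBF) (A : Type) [BooleanAlgebra A] [Finite A] (R : RelAlg A)
    (hs : R.Symm) (T : Str {a : A // IsAtom a}) (he : T.e.1 = R.idt)
    (hT : ∀ a b c : {a : A // IsAtom a}, T.R a b c ↔ c.1 ≤ R.comp a.1 b.1)
    (V : Type) [Finite V] (f : V → V → A) (K : Finset V) (τ : K → K → {a : A // IsAtom a}) :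
    IsPartial R f K (up_BG τ) ↔ CPart T (fun x y => {a | a.1 ≤ f x y}) K τ := by
  have hF := h1 A R hs T he hT K (up_BG τ)
  constructor
  · rintro ⟨ha, hle, hsat⟩
    obtain ⟨c, hc, hcle⟩ := hF.1 hsat
    have hcτ : c = τ := by
      funext x y
      apply Subtype.ext
      rcases (τ x y).2.le_iff.1 (hcle x y) with h | h
      · exact absurd h (c x y).2.1
      · exact h
    rw [hcτ] at hc
    exact ⟨hc, fun x y => hle x y⟩
  · rintro ⟨hc, hle⟩
    exact ⟨fun x y => (τ x y).2, fun x y => hle x y, hF.2 ⟨τ, hc, fun x y => le_refl _⟩⟩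

theorem m_BG (h1 : StBF) : StBG := by
  intro A _ _ R hs T he hT V _ f l k
  have hP := fun (K : Finset V) (τ : K → K → {a : A // IsAtom a}) =>
    part_BG h1 A R hs T he hT V f K τ
  have hlift : ∀ (K : Finset V) (σ : K → K → A), IsPartial R f K σ →
      ∃ τ : K → K → {a : A // IsAtom a}, up_BG τ = σ :=
    fun K σ hσ => ⟨fun x y => ⟨σ x y, hσ.1 x y⟩, rfl⟩
  constructor
  · rintro ⟨P, hmin, hne⟩
    refine ⟨fun L => {τ | up_BG τ ∈ P L}, ?_, ?_⟩
    · intro L hL τ hτ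
      obtain ⟨hpart, hext⟩ := hmin L hL _ hτ
      refine ⟨(hP L τ).1 hpart, fun K h hK => ?_⟩
      obtain ⟨ρ, hρ, hres, hall⟩ := hext K h hK
      obtain ⟨ρ', rfl⟩ := hlift K ρ hρ
      refine ⟨ρ', (hP K ρ').1 hρ, ?_, fun L' h' hL' => hall L' h' hL'⟩
      exact up_inj_BG _ _ hres
    · intro L hL
      obtain ⟨σ, hσ⟩ := hne L hL
      obtain ⟨τ, rfl⟩ := hlift L σ (hmin L hL σ hσ).1
      exact ⟨τ, hσ⟩
  · rintro ⟨P, hmin, hne⟩
    refine ⟨fun L => {σ | ∃ τ ∈ P L, up_BG τ = σ}, ?_, ?_⟩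
    · rintro L hL σ ⟨τ, hτ, rfl⟩
      obtain ⟨hpart, hext⟩ := hmin L hL _ hτ
      refine ⟨(hP L τ).2 hpart, fun K h hK => ?_⟩
      obtain ⟨ρ, hρ, hres, hall⟩ := hext K h hK
      refine ⟨up_BG ρ, (hP K ρ).2 hρ, ?_, fun L' h' hL' => ⟨res h' ρ, hall L' h' hL', rfl⟩⟩
      rw [res_up_BG, hres]
    · intro L hL
      obtain ⟨τ, hτ⟩ := hne L hL
      exact ⟨up_BG τ, τ, hτ, rfl⟩

end Pool.Agent.Helper32.RA7
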