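import Mathlib
import Pool.Agent.Helper32.RA7.St

set_option autoImplicit false

/-!
# MP_65b7ad_lc, project RA7: module BH (a solution gives a minimal refinement)
-/

namespace Pool.Agent.Helper32.RA7

private theorem cpart_BH {O : Type} {T : Str O} {X : Type} {F : X → X → Set O} {c : X → X → O}
    (hc : Closed T c) (hF : ∀ x y : X, c x y ∈ F x y) (K : Finset X) :
    CPart T F K (fun x y => c x.1 y.1) :=
  ⟨⟨fun x => hc.1 x.1, fun x y => hc.2.1 x.1 y.1, fun x y z => hc.2.2 x.1 y.1 z.1⟩,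
    fun x y => hF x.1 y.1⟩

theorem m_BH : StBH := by
  intro O T X F l k hS
  obtain ⟨c, hc, hF⟩ := hS
  refine ⟨fun L => {fun x y => c x.1 y.1}, ?_, ?_⟩
  · intro L _ σ hσ
    have hσ' : σ = fun x y => c x.1 y.1 := hσ
    subst hσ'
    refine ⟨cpart_BH hc hF L, ?_⟩
    intro K h _
    exact ⟨fun x y => c x.1 y.1, cpart_BH hc hF K, rfl, fun L' h' _ => rfl⟩
  · intro L _
    exact ⟨fun x y => c x.1 y.1, rfl⟩

end Pool.Agent.Helper32.RA7
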