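import Mathlib
import Pool.Agent.Helper32.RA7.St

set_option autoImplicit false

/-!
# MP_65b7ad_lc, project RA7: module BI
-/

namespace Pool.Agent.Helper32.RA7

private theorem le_sup_BI {A : Type} [BooleanAlgebra A] {p a b : A} (hp : IsAtom p)
    (h : p ≤ a ⊔ b) : p ≤ a ∨ p ≤ b := by
  rcases hp.le_iff.1 (inf_le_left : p ⊓ a ≤ p) with h1 | h1
  · right
    have h2 : p = p ⊓ b := by
      calc p = p ⊓ (a ⊔ b) := (inf_eq_left.2 h).symm
        _ = (p ⊓ a) ⊔ (p ⊓ b) := inf_sup_left _ _ _
        _ = p ⊓ b := by rw [h1, bot_sup_eq]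
    rw [h2]
    exact inf_le_right
  · left
    rw [← h1]
    exact inf_le_right

private theorem le_fsup_BI {A ι : Type} [BooleanAlgebra A] {p : A} (hp : IsAtom p)
    (s : Finset ι) (g : ι → A) (h : p ≤ s.sup g) : ∃ i ∈ s, p ≤ g i := by
  classical
  induction s using Finset.induction_on with
  | empty =>
    rw [Finset.sup_empty] at h
    exact absurd (le_bot_iff.1 h) hp.1
  | insert i s _ ih =>
    rw [Finset.sup_insert] at h
    rcases le_sup_BI hp h with h1 | h1
    · exact ⟨i, Finset.mem_insert_self _ _, h1⟩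
    · obtain ⟨j, hj, h2⟩ := ih h1
      exact ⟨j, Finset.mem_insert_of_mem hj, h2⟩

theorem m_BI (h1 : StBF) (h2 : StBG) (h3 : StBH) : StBI := by
  intro A _ _ R hR T hTe hT l k
  constructor
  · intro hS X _ F hF
    have hfin : ∀ x y : X, (F x y).Finite := fun x y => Set.toFinite _
    obtain ⟨f, hf⟩ : ∃ f : X → X → A, f = fun x y => (hfin x y).toFinset.sup Subtype.val :=
      ⟨_, rfl⟩
    have hset : (fun x y => {a : {a : A // IsAtom a} | a.1 ≤ f x y}) = F := by
      funext x y
      ext a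
      rw [Set.mem_setOf_eq, hf]
      constructor
      · intro h
        obtain ⟨b, hb, hab⟩ := le_fsup_BI a.2 _ _ h
        have hab2 : a = b := by
          apply Subtype.ext
          rcases b.2.le_iff.1 hab with h4 | h4
          · exact absurd h4 a.2.1
          · exact h4
        rw [hab2]
        exact (Set.Finite.mem_toFinset _).1 hb
      · intro h
        exact Finset.le_sup (f := Subtype.val) ((Set.Finite.mem_toFinset _).2 h)
    have hacc : Accepts R f l k := (h2 A R hR T hTe hT X f l k).2 (by rw [hset]; exact hF)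
    obtain ⟨c, hc1, hc2⟩ := (h1 A R hR T hTe hT X f).1 ((hS X f).1 hacc)
    refine ⟨c, hc1, fun x y => ?_⟩
    rw [← hset]
    exact hc2 x y
  · intro hC V _ f
    constructor
    · intro hacc
      obtain ⟨c, hc1, hc2⟩ := hC V _ ((h2 A R hR T hTe hT V f l k).1 hacc)
      exact (h1 A R hR T hTe hT V f).2 ⟨c, hc1, hc2⟩
    · intro hsat
      obtain ⟨c, hc1, hc2⟩ := (h1 A R hR T hTe hT V f).1 hsat
      exact (h2 A R hR T hTe hT V f l k).2 (h3 _ T V _ l k ⟨c, hc1, hc2⟩)

end Pool.Agent.Helper32.RA7
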