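import Mathlib
import Pool.Agent.Helper32.RA7.St

set_option autoImplicit false

namespace Pool.Agent.Helper32.RA7

theorem m_BJ (h1 : StBB) (h2 : StBI) : StBJ := by
  intro h3 A _ _ R hs hi hf hk
  obtain ⟨s, hf⟩ := hf
  obtain ⟨T, hTe, -, hT⟩ := h1 A R hs hi s hf
  obtain ⟨l, k, hlk, hsol⟩ := hk
  have h4 : CSolves T l k := (h2 A R hs T hTe hT l k).mp hsol
  exact (h2 A R hs T hTe hT 2 3).mpr (h3 _ T ⟨l, k, hlk, h4⟩)

end Pool.Agent.Helper32.RA7
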