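import Mathlib
import Pool.Agent.Helper32.RA7.St

set_option autoImplicit false

/-! Path consistency in the usual form: the closure under f x y := f x y ⊓ comp (f x z) (f z y). -/

namespace Pool.Agent.Helper32.RA7

/-- the path consistency algorithm solves the network satisfaction problem: a network is satisfiable
if and only if some (and so the largest) refinement g with identity diagonal, g y x = conv (g x y) and
g x y ≤ comp (g x z) (g z y) for all x, y, z has no zero entry -/
def PathSolves {A : Type} [BooleanAlgebra A] (R : RelAlg A) : Prop :=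
  ∀ (V : Type) [Finite V] (f : V → V → A), Sat R f ↔
    ∃ g : V → V → A, (∀ x y, g x y ≤ f x y) ∧ (∀ x y, g x y ≠ ⊥) ∧ (∀ x, g x x ≤ R.idt) ∧
      (∀ x y, g y x = R.conv (g x y)) ∧ ∀ x y z, g x y ≤ R.comp (g x z) (g z y)

/-- MODULE BK (uses BC, BF) -/
def StBK : Prop := ∀ (A : Type) [BooleanAlgebra A] [Finite A] (R : RelAlg A) (_ : R.Symm)
    (_ : R.Integral) (T : Str {a : A // IsAtom a}) (_ : T.e.1 = R.idt)
    (_ : ∀ a b c : {a : A // IsAtom a}, T.R a b c ↔ c.1 ≤ R.comp a.1 b.1),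
    CSolves T 2 3 → PathSolves R

section lemmas

variable {O : Type} (T : Str O)

private theorem ree_BK (a : O) : T.R T.e a a := (T.idl a a).mpr rfl

/-- one point extension -/
private theorem ext1_BK {X : Type} [DecidableEq X] (L : Finset X) (z : X) (hz : z ∉ L)
    (σ : L → L → O) (hσ : Closed T σ) (d : L → O) (hd : ∀ x y : L, T.R (d x) (d y) (σ x y)) :
    ∃ τ : ↥(insert z L : Finset X) → ↥(insert z L : Finset X) → O, Closed T τ ∧
      res (Finset.subset_insert z L) τ = σ ∧
      (∀ (x : ↥(insert z L : Finset X)) (y : ↥(insert z L : Finset X)),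
        (x.1 = z ∧ y.1 = z ∧ τ x y = T.e) ∨
        (∃ hy : y.1 ∈ L, x.1 = z ∧ τ x y = d ⟨y.1, hy⟩) ∨
        (∃ hx : x.1 ∈ L, y.1 = z ∧ τ x y = d ⟨x.1, hx⟩) ∨
        (∃ (hx : x.1 ∈ L) (hy : y.1 ∈ L), τ x y = σ ⟨x.1, hx⟩ ⟨y.1, hy⟩)) := by
  classical
  have hmem : ∀ x : ↥(insert z L : Finset X), x.1 ≠ z → x.1 ∈ L := by
    intro x hx
    rcases Finset.mem_insert.mp x.2 with h | h
    · exact absurd h hx
    · exact h
  let τ : ↥(insert z L : Finset X) → ↥(insert z L : Finset X) → O := fun x y =>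
    if hx : x.1 = z then (if hy : y.1 = z then T.e else d ⟨y.1, hmem y hy⟩)
    else (if hy : y.1 = z then d ⟨x.1, hmem x hx⟩ else σ ⟨x.1, hmem x hx⟩ ⟨y.1, hmem y hy⟩)
  have t00 : ∀ x y : ↥(insert z L : Finset X), x.1 = z → y.1 = z → τ x y = T.e := by
    intro x y hx hy
    simp only [τ, hx, hy, dite_true]
  have t01 : ∀ (x y : ↥(insert z L : Finset X)) (_ : x.1 = z) (hy : y.1 ∈ L),
      τ x y = d ⟨y.1, hy⟩ := by
    intro x y hx hy
    have hy' : y.1 ≠ z := fun h => hz (h ▸ hy)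
    simp only [τ, hx, hy', dite_true, dite_false]
  have t10 : ∀ (x y : ↥(insert z L : Finset X)) (hx : x.1 ∈ L) (_ : y.1 = z),
      τ x y = d ⟨x.1, hx⟩ := by
    intro x y hx hy
    have hx' : x.1 ≠ z := fun h => hz (h ▸ hx)
    simp only [τ, hy, hx', dite_true, dite_false]
  have t11 : ∀ (x y : ↥(insert z L : Finset X)) (hx : x.1 ∈ L) (hy : y.1 ∈ L),
      τ x y = σ ⟨x.1, hx⟩ ⟨y.1, hy⟩ := by
    intro x y hx hy
    have hx' : x.1 ≠ z := fun h => hz (h ▸ hx)
    have hy' : y.1 ≠ z := fun h => hz (h ▸ hy)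
    simp only [τ, hy', hx', dite_false]
  obtain ⟨s1, s2, s3⟩ := hσ
  have hcase : ∀ x : ↥(insert z L : Finset X), x.1 = z ∨ x.1 ∈ L := fun x =>
    Finset.mem_insert.mp x.2
  have hdd : ∀ x : L, T.R (d x) (d x) T.e := by
    intro x
    have := hd x x
    rwa [s1] at this
  refine ⟨τ, ⟨?_, ?_, ?_⟩, ?_, ?_⟩
  · intro x
    rcases hcase x with hx | hx
    · exact t00 x x hx hx
    · rw [t11 x x hx hx, s1]
  · intro x y
    rcases hcase x with hx | hx <;> rcases hcase y with hy | hy
    · rw [t00 x y hx hy, t00 y x hy hx]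
    · rw [t01 x y hx hy, t10 y x hy hx]
    · rw [t10 x y hx hy, t01 y x hy hx]
    · rw [t11 x y hx hy, t11 y x hy hx, s2]
  · intro x y w
    rcases hcase x with hx | hx <;> rcases hcase y with hy | hy <;> rcases hcase w with hw | hw
    · rw [t00 x y hx hy, t00 y w hy hw, t00 x w hx hw]
      exact ree_BK T _
    · rw [t00 x y hx hy, t01 y w hy hw, t01 x w hx hw]
      exact ree_BK T _
    · rw [t01 x y hx hy, t10 y w hy hw, t00 x w hx hw]
      exact hdd _
    · rw [t01 x y hx hy, t11 y w hy hw, t01 x w hx hw]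
      -- R (d y) (σ y w) (d w)
      have h := hd ⟨w.1, hw⟩ ⟨y.1, hy⟩
      -- R (d w) (d y) (σ w y) -> rot : R (d y) (σ w y) (d w)
      have h2 := T.rot _ _ _ h
      rw [s2] at h2
      exact h2
    · rw [t10 x y hx hy, t00 y w hy hw, t10 x w hx hw]
      exact T.sw _ _ _ (ree_BK T _)
    · rw [t10 x y hx hy, t01 y w hy hw, t11 x w hx hw]
      exact hd _ _
    · rw [t11 x y hx hy, t10 y w hy hw, t10 x w hx hw]
      -- R (σ x y) (d y) (d x)
      have h := hd ⟨y.1, hy⟩ ⟨x.1, hx⟩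
      -- R (d y) (d x) (σ y x) ; rot : R (d x) (σ y x) (d y); rot: R (σ y x) (d y) (d x)
      have h2 := T.rot _ _ _ (T.rot _ _ _ h)
      rw [s2] at h2
      exact h2
    · rw [t11 x y hx hy, t11 y w hy hw, t11 x w hx hw]
      exact s3 _ _ _
  · funext x y
    have := t11 ⟨x.1, Finset.subset_insert z L x.2⟩ ⟨y.1, Finset.subset_insert z L y.2⟩ x.2 y.2
    exact this
  · intro x y
    rcases hcase x with hx | hx <;> rcases hcase y with hy | hy
    · exact Or.inl ⟨hx, hy, t00 x y hx hy⟩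
    · exact Or.inr (Or.inl ⟨hy, hx, t01 x y hx hy⟩)
    · exact Or.inr (Or.inr (Or.inl ⟨hx, hy, t10 x y hx hy⟩))
    · exact Or.inr (Or.inr (Or.inr ⟨hx, hy, t11 x y hx hy⟩))

/-- extension from L to K, card K ≤ 3 -/
private theorem extK_BK {X : Type} (G : X → X → Set O)
    (hee : ∀ x, T.e ∈ G x x) (hne : ∀ x y, ∃ a, a ∈ G x y) (hsy : ∀ x y a, a ∈ G x y → a ∈ G y x)
    (htr : ∀ x y z a, a ∈ G x y → ∃ p q, p ∈ G x z ∧ q ∈ G z y ∧ T.R p q a)
    (K : Finset X) (hK : K.card ≤ 3) (n : ℕ) :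
    ∀ (L : Finset X) (h : L ⊆ K), K.card - L.card = n → ∀ σ : L → L → O, Closed T σ →
      (∀ x y : L, σ x y ∈ G x.1 y.1) → ∃ τ : K → K → O, Closed T τ ∧
      (∀ x y : K, τ x y ∈ G x.1 y.1) ∧ res h τ = σ := by
  classical
  induction n with
  | zero =>
    intro L h hc σ hσ hG
    have hle := Finset.card_le_card h
    have hLK : L = K := Finset.eq_of_subset_of_card_le h (by omega)
    subst hLK
    exact ⟨σ, hσ, hG, rfl⟩
  | succ n ih =>
    intro L h hc σ hσ hG
    have hlt : L.card < K.card := by omega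
    obtain ⟨z, hzK, hzL⟩ := Finset.exists_mem_notMem_of_card_lt_card hlt
    have hL2 : L.card ≤ 2 := by omega
    have hd : ∃ d : L → O, (∀ x y : L, T.R (d x) (d y) (σ x y)) ∧ ∀ x : L, d x ∈ G z x.1 := by
      have hcases : L.card = 0 ∨ L.card = 1 ∨ L.card = 2 := by omega
      rcases hcases with h0 | h1 | h2
      · have hL : L = ∅ := Finset.card_eq_zero.mp h0
        subst hL
        exact ⟨fun x => absurd x.2 (Finset.notMem_empty _),
          fun x => absurd x.2 (Finset.notMem_empty _), fun x => absurd x.2 (Finset.notMem_empty _)⟩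
      · obtain ⟨x0, hL⟩ := Finset.card_eq_one.mp h1
        subst hL
        obtain ⟨p, hp⟩ := hne z x0
        refine ⟨fun _ => p, ?_, ?_⟩
        · intro x y
          have hxy : x = y := Subtype.ext (by
            rw [Finset.mem_singleton.mp x.2, Finset.mem_singleton.mp y.2])
          rw [hxy, hσ.1]
          exact T.rot _ _ _ (ree_BK T p)
        · intro x
          have hx : x.1 = x0 := Finset.mem_singleton.mp x.2
          rw [hx]
          exact hp
      · obtain ⟨x0, y0, hne0, hL⟩ := Finset.card_eq_two.mp h2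
        subst hL
        have hx0 : x0 ∈ ({x0, y0} : Finset X) := by simp
        have hy0 : y0 ∈ ({x0, y0} : Finset X) := by simp
        obtain ⟨p, q, hp, hq, hR⟩ := htr x0 y0 z (σ ⟨x0, hx0⟩ ⟨y0, hy0⟩) (hG ⟨x0, hx0⟩ ⟨y0, hy0⟩)
        have hcs : ∀ x : ↥({x0, y0} : Finset X), x = ⟨x0, hx0⟩ ∨ x = ⟨y0, hy0⟩ := by
          intro x
          have := x.2
          rw [Finset.mem_insert, Finset.mem_singleton] at this
          rcases this with h | h
          · exact Or.inl (Subtype.ext h)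
          · exact Or.inr (Subtype.ext h)
        have hyx : ¬ (y0 = x0) := fun h => hne0 h.symm
        refine ⟨fun x => if x.1 = x0 then p else q, ?_, ?_⟩
        · intro x y
          rcases hcs x with hx | hx <;> rcases hcs y with hy | hy
          · subst hx; subst hy
            rw [hσ.1]
            exact T.rot _ _ _ (ree_BK T _)
          · subst hx; subst hy
            simp only [if_true, hyx, if_false]
            exact hR
          · subst hx; subst hy
            simp only [if_true, hyx, if_false]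
            rw [hσ.2.1]
            exact T.sw _ _ _ hR
          · subst hx; subst hy
            rw [hσ.1]
            exact T.rot _ _ _ (ree_BK T _)
        · intro x
          rcases hcs x with hx | hx
          · subst hx
            simp only [if_true]
            exact hsy _ _ _ hp
          · subst hx
            simp only [hyx, if_false]
            exact hq
    obtain ⟨d, hd1, hd2⟩ := hd
    obtain ⟨τ, hτ1, hτ2, hτ3⟩ := ext1_BK T L z hzL σ hσ d hd1
    have hsub : insert z L ⊆ K := Finset.insert_subset hzK h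
    have hcard : (insert z L).card = L.card + 1 := Finset.card_insert_of_notMem hzL
    obtain ⟨ρ, hρ1, hρ2, hρ3⟩ := ih (insert z L) hsub (by omega) τ hτ1 (by
      intro x y
      rcases hτ3 x y with ⟨hx, hy, ht⟩ | ⟨hy, hx, ht⟩ | ⟨hx, hy, ht⟩ | ⟨hx, hy, ht⟩
      · rw [ht, hx, hy]
        exact hee z
      · rw [ht, hx]
        exact hd2 ⟨y.1, hy⟩
      · rw [ht, hy]
        exact hsy _ _ _ (hd2 ⟨x.1, hx⟩)
      · rw [ht]
        exact hG ⟨x.1, hx⟩ ⟨y.1, hy⟩)
    refine ⟨ρ, hρ1, hρ2, ?_⟩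
    funext x y
    have h4 := congrFun (congrFun hρ3 ⟨x.1, Finset.subset_insert z L x.2⟩)
      ⟨y.1, Finset.subset_insert z L y.2⟩
    have h5 := congrFun (congrFun hτ2 x) y
    exact h4.trans h5

end lemmas

theorem m_BK (h1 : StBC) (h2 : StBF) : StBK := by
  intro A _ _ R hs hi T hTe hT hsol V _ f
  classical
  rw [h2 A R hs T hTe hT V f]
  constructor
  · rintro ⟨c, hc, hcf⟩
    refine ⟨fun x y => (c x y).1, hcf, fun x y => (c x y).2.1, ?_, ?_, ?_⟩
    · intro x
      show (c x x).1 ≤ R.idt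
      rw [hc.1 x, hTe]
    · intro x y
      show (c y x).1 = R.conv (c x y).1
      rw [hs, hc.2.1]
    · intro x y z
      exact (hT _ _ _).mp (hc.2.2 x z y)
  · rintro ⟨g, hgf, hg0, hgd, hgs, hgt⟩
    apply hsol V (fun x y => {a | a.1 ≤ f x y})
    let G : V → V → Set {a : A // IsAtom a} := fun x y => {a | a.1 ≤ g x y}
    have hfin : ∀ x : A, x ≠ ⊥ → ∃ a : {a : A // IsAtom a}, a.1 ≤ x := by
      intro x hx
      have : IsAtomic A := Finite.to_isAtomic
      rcases eq_bot_or_exists_atom_le x with h | ⟨a, ha, hax⟩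
      · exact absurd h hx
      · exact ⟨⟨a, ha⟩, hax⟩
    have hee : ∀ x, T.e ∈ G x x := by
      intro x
      show T.e.1 ≤ g x x
      rw [hTe]
      rcases hi.le_iff.mp (hgd x) with h | h
      · exact absurd h (hg0 x x)
      · rw [h]
    have hne : ∀ x y, ∃ a, a ∈ G x y := fun x y => hfin _ (hg0 x y)
    have hsy : ∀ x y a, a ∈ G x y → a ∈ G y x := by
      intro x y a ha
      show a.1 ≤ g y x
      rw [hgs x y, hs]
      exact ha
    have htr : ∀ x y z a, a ∈ G x y → ∃ p q, p ∈ G x z ∧ q ∈ G z y ∧ T.R p q a := by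
      intro x y z a ha
      have h3 : a.1 ≤ R.comp (g x z) (g z y) := le_trans ha (hgt x y z)
      obtain ⟨p, q, hp, hq, hpx, hqy, hpq⟩ := (h1 A R hs a.1 _ _ a.2).mp h3
      exact ⟨⟨p, hp⟩, ⟨q, hq⟩, hpx, hqy, (hT _ _ _).mpr hpq⟩
    have hK := extK_BK T G hee hne hsy htr
    refine ⟨fun L => {σ | Closed T σ ∧ ∀ x y : L, σ x y ∈ G x.1 y.1}, ?_, ?_⟩
    · intro L hL σ hσ
      refine ⟨⟨hσ.1, fun x y => le_trans (hσ.2 x y) (hgf _ _)⟩, ?_⟩
      intro K hLK hKc
      obtain ⟨τ, hτ1, hτ2, hτ3⟩ := hK K hKc _ L hLK rfl σ hσ.1 hσ.2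
      refine ⟨τ, ⟨hτ1, fun x y => le_trans (hτ2 x y) (hgf _ _)⟩, hτ3, ?_⟩
      intro L' hL' _
      refine ⟨⟨fun x => hτ1.1 _, fun x y => hτ1.2.1 _ _, fun x y z => hτ1.2.2 _ _ _⟩, ?_⟩
      intro x y
      exact hτ2 _ _
    · intro L hL
      have hemp : Closed T (fun x _ : ↥(∅ : Finset V) => (absurd x.2 (Finset.notMem_empty _) :
          {a : A // IsAtom a})) :=
        ⟨fun x => absurd x.2 (Finset.notMem_empty _), fun x => absurd x.2 (Finset.notMem_empty _),
          fun x => absurd x.2 (Finset.notMem_empty _)⟩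
      obtain ⟨τ, hτ1, hτ2, -⟩ := hK L (by omega) _ ∅ (Finset.empty_subset _) rfl _ hemp
        (fun x => absurd x.2 (Finset.notMem_empty _))
      exact ⟨τ, hτ1, hτ2⟩

end Pool.Agent.Helper32.RA7
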