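import Mathlib
import Pool.Agent.Helper32.RA7.St

set_option autoImplicit false

namespace Pool.Agent.Helper32.RA7

private theorem two_IA (x : ZMod 2) : x + x = 0 := CharTwo.add_self_eq_zero x

private theorem total_IA {n : ℕ} (A : Fin n → Fin n → ZMod 2) (hs : ∀ i j, A i j = A j i)
    (hd : ∀ i, A i i = 0) : ∑ i, ∑ j, A i j = 0 := by
  rw [← Finset.sum_product']
  refine Finset.sum_involution (fun p _ => p.swap) ?_ ?_ ?_ ?_
  · intro p _
    show A p.1 p.2 + A p.2 p.1 = 0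
    rw [hs p.2 p.1]
    exact two_IA _
  · intro p _ hp hsw
    apply hp
    have h1 : p.2 = p.1 := congrArg Prod.fst hsw
    show A p.1 p.2 = 0
    rw [h1]
    exact hd _
  · intro p _
    simp
  · intro p _
    simp

private theorem sum_ch_IA {n : ℕ} (hn : 0 < n) : ∑ i : Fin n, ch i = 1 := by
  rw [Finset.sum_eq_single (⟨0, hn⟩ : Fin n)]
  · simp [ch]
  · intro b _ hb
    have : b.1 ≠ 0 := fun h => hb (Fin.ext h)
    simp [ch, this]
  · intro h
    exact absurd (Finset.mem_univ _) h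

private theorem flip_IA {n : ℕ} (hn : 0 < n) (A : Fin n → Fin n → ZMod 2) (i0 i1 : Fin n)
    (hs : ∀ i j, A i j = A j i) (hd : ∀ i, A i i = 0)
    (hr : ∀ i, i ≠ i0 → ∑ j, A i j = ch i) (hne : i1 ≠ i0) :
    ∃ A' : Fin n → Fin n → ZMod 2, (∀ i j, A' i j = A' j i) ∧ (∀ i, A' i i = 0) ∧
      (∀ i, i ≠ i1 → ∑ j, A' i j = ch i) ∧ ∀ i j, i ≠ i0 → i ≠ i1 → A' i j = A i j := by
  have h0 : ∑ j, A i0 j = ch i0 + 1 := by
    have h1 := total_IA A hs hd
    have h2 := sum_ch_IA hn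
    rw [← Finset.add_sum_erase _ _ (Finset.mem_univ i0)] at h1 h2
    have h3 : ∑ i ∈ Finset.univ.erase i0, ∑ j, A i j = ∑ i ∈ Finset.univ.erase i0, ch i :=
      Finset.sum_congr rfl fun i hi => hr i (Finset.ne_of_mem_erase hi)
    rw [h3] at h1
    have h4 := two_IA (∑ i ∈ Finset.univ.erase i0, ch i)
    have h5 := two_IA (ch i0)
    calc ∑ j, A i0 j = (∑ j, A i0 j + ∑ i ∈ Finset.univ.erase i0, ch i) +
          (ch i0 + ∑ i ∈ Finset.univ.erase i0, ch i) + ch i0 -
          (ch i0 + ch i0) - (∑ i ∈ Finset.univ.erase i0, ch i +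
            ∑ i ∈ Finset.univ.erase i0, ch i) := by ring
      _ = ch i0 + 1 := by rw [h1, h2, h4, h5]; ring
  refine ⟨fun i j => A i j + (if i = i0 ∧ j = i1 then 1 else 0) +
    (if i = i1 ∧ j = i0 then 1 else 0), ?_, ?_, ?_, ?_⟩
  · intro i j
    show A i j + _ + _ = A j i + _ + _
    rw [hs i j]
    have e1 : (if i = i0 ∧ j = i1 then (1 : ZMod 2) else 0) =
        if j = i1 ∧ i = i0 then 1 else 0 := by simp only [and_comm]
    have e2 : (if i = i1 ∧ j = i0 then (1 : ZMod 2) else 0) =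
        if j = i0 ∧ i = i1 then 1 else 0 := by simp only [and_comm]
    rw [e1, e2]
    ring
  · intro i
    show A i i + _ + _ = 0
    rw [hd i, if_neg, if_neg]
    · ring
    · rintro ⟨rfl, h⟩
      exact hne h
    · rintro ⟨rfl, h⟩
      exact hne h.symm
  · intro i hi
    show ∑ j, (A i j + _ + _) = ch i
    rw [Finset.sum_add_distrib, Finset.sum_add_distrib]
    by_cases h : i = i0
    · subst h
      rw [h0]
      have e1 : ∑ j, (if i = i ∧ j = i1 then (1 : ZMod 2) else 0) = 1 := by simp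
      have e2 : ∑ j, (if i = i1 ∧ j = i then (1 : ZMod 2) else 0) = 0 := by simp [hi]
      rw [e1, e2, add_zero, add_assoc, two_IA, add_zero]
    · rw [hr i h]
      have e1 : ∑ j, (if i = i0 ∧ j = i1 then (1 : ZMod 2) else 0) = 0 := by simp [h]
      have e2 : ∑ j, (if i = i1 ∧ j = i0 then (1 : ZMod 2) else 0) = 0 := by simp [hi]
      rw [e1, e2, add_zero, add_zero]
  · intro i j h1 h2
    show A i j + _ + _ = A i j
    rw [if_neg (fun h => h1 h.1), if_neg (fun h => h2 h.1), add_zero, add_zero]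

theorem m_IA : StIA := by
  intro n hn
  refine ⟨?_, ?_⟩
  · intro i0
    have hz : ∀ i : Fin n, i ≠ ⟨0, hn⟩ → ∑ j : Fin n, (0 : ZMod 2) = ch i := by
      intro i hi
      have : i.1 ≠ 0 := fun h => hi (Fin.ext h)
      simp [ch, this]
    by_cases h : i0 = ⟨0, hn⟩
    · refine ⟨fun _ _ => 0, fun _ _ => rfl, fun _ => rfl, ?_⟩
      intro i hi
      exact hz i (h ▸ hi)
    · obtain ⟨A', a1, a2, a3, -⟩ := flip_IA hn (fun _ _ => 0) ⟨0, hn⟩ i0 (fun _ _ => rfl)
        (fun _ => rfl) hz h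
      exact ⟨A', a1, a2, a3⟩
  · intro A i0 i1 hs hd hr hne
    exact flip_IA hn A i0 i1 hs hd hr hne

end Pool.Agent.Helper32.RA7
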