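import Mathlib
import Pool.Agent.Helper32.RA7.St

set_option autoImplicit false

/-!
# MP_65b7ad_lc, module IC: parity
-/

namespace Pool.Agent.Helper32.RA7

private lemma z2_IC (x y : ZMod 2) : x + y = 1 ↔ (x = 1 ∧ ¬ y = 1) ∨ (y = 1 ∧ ¬ x = 1) := by
  revert x y
  decide

private lemma self_add_IC (x : ZMod 2) : x + x = 0 := by
  revert x
  decide

theorem m_IC : StIC := by
  intro n hn v hadd huniv hsym
  -- the value at the empty set
  have hempty : ∀ i, v i ∅ = 0 := by
    intro i
    have h := hadd i ∅ ∅
    rw [self_add_IC] at h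
    have : symmDiff (∅ : Set (Row n i)) ∅ = ∅ := symmDiff_self _
    rw [this] at h
    exact h
  -- partial sums
  have hpart : ∀ (i : Fin n) (J : Finset (Fin n)),
      v i {a | ∑ j ∈ J, a.1 j = 1} = ∑ j ∈ J, v i {a | a.1 j = 1} := by
    intro i J
    induction J using Finset.induction_on with
    | empty =>
      have : {a : Row n i | ∑ j ∈ (∅ : Finset (Fin n)), a.1 j = 1} = ∅ := by
        ext a
        simp
      rw [this, hempty, Finset.sum_empty]
    | @insert j J hj ih =>
      rw [Finset.sum_insert hj, ← ih, ← hadd]
      congr 1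
      ext a
      rw [Set.mem_symmDiff]
      simp only [Set.mem_ofPred_eq]
      rw [Finset.sum_insert hj]
      exact z2_IC _ _
  have hrow : ∀ i : Fin n, ∑ j, v i {a | a.1 j = 1} = ch i := by
    intro i
    rw [← hpart i Finset.univ]
    by_cases h : ch i = 1
    · have : {a : Row n i | ∑ j, a.1 j = 1} = Set.univ := by
        ext a
        simp only [Set.mem_ofPred_eq, Set.mem_univ, iff_true]
        rw [a.2.2, h]
      rw [this, huniv, h]
    · have h0 : ch i = 0 := by
        unfold ch at h ⊢
        split_ifs at h ⊢ with h1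
        · exact absurd rfl h
        · rfl
      have : {a : Row n i | ∑ j, a.1 j = 1} = ∅ := by
        ext a
        simp only [Set.mem_ofPred_eq, Set.mem_empty_iff_false, iff_false]
        rw [a.2.2]
        exact h
      rw [this, hempty, h0]
  have hdiag : ∀ i : Fin n, v i {a | a.1 i = 1} = 0 := by
    intro i
    have : {a : Row n i | a.1 i = 1} = ∅ := by
      ext a
      simp only [Set.mem_ofPred_eq, Set.mem_empty_iff_false, iff_false]
      rw [a.2.1]
      decide
    rw [this, hempty]
  have hzero : ∑ p : Fin n × Fin n, v p.1 {a | a.1 p.2 = 1} = 0 := by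
    apply Finset.sum_involution (fun p _ => p.swap)
    · intro p _
      by_cases hp : p.1 = p.2
      · obtain ⟨i, j⟩ := p
        simp only at hp
        subst hp
        change v i {a | a.1 i = 1} + v i {a | a.1 i = 1} = 0
        exact self_add_IC _
      · change v p.1 {a | a.1 p.2 = 1} + v p.2 {a | a.1 p.1 = 1} = 0
        rw [hsym p.1 p.2 hp]
        exact self_add_IC _
    · intro p _ hne heq
      apply hne
      obtain ⟨i, j⟩ := p
      have hij : j = i := congrArg Prod.fst heq
      subst hij
      exact hdiag j
    · intro p _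
      exact Prod.swap_swap p
    · intro p _
      exact Finset.mem_univ _
  rw [Fintype.sum_prod_type] at hzero
  have hch : ∑ i : Fin n, ch i = 1 := by
    unfold ch
    rw [Finset.sum_eq_single (⟨0, hn⟩ : Fin n)]
    · simp
    · intro b _ hb
      rw [if_neg]
      intro h
      exact hb (Fin.ext h)
    · intro h
      exact absurd (Finset.mem_univ _) h
  have h1 : ∑ i : Fin n, ∑ j : Fin n, v i {a | a.1 j = 1} = 1 :=
    (Finset.sum_congr rfl fun i _ => hrow i).trans hch
  rw [h1] at hzero
  exact absurd hzero (by decide)

end Pool.Agent.Helper32.RA7
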