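import Mathlib
import Pool.Agent.Helper32.RA7.St

set_option autoImplicit false

namespace Pool.Agent.Helper32.RA7

theorem finiteRow_ID (n : ℕ) (i : Fin n) : Finite (Row n i) := by
  unfold Row
  infer_instance

theorem ev_mem_ID {V : Type} (U : Ultrafilter (Finset V)) (hU : (U : Filter (Finset V)) ≤ Filter.atTop)
    {J : Type} [Finite J] (p : J → V) : ∀ᶠ F in (U : Filter (Finset V)), ∀ a, p a ∈ F := by
  have h1 : ∀ᶠ F in (Filter.atTop : Filter (Finset V)), (Set.finite_range p).toFinset ≤ F :=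
    Filter.eventually_ge_atTop _
  have h2 := hU h1
  filter_upwards [h2] with F hF a
  exact hF ((Set.finite_range p).mem_toFinset.2 ⟨a, rfl⟩)

theorem m_ID (h1 : StIB) : StID := by
  classical
  intro O _ T l k hlk hsol n hkn V col hcol
  have hfin : ∀ i : Fin n, Finite (Row n i) := finiteRow_ID n
  have hF : ∀ F : Finset V, ∃ χ : (i : Fin n) → (Row n i → F) → (Row n i → F) → O,
      (∀ i, Closed T (χ i)) ∧ (∀ i p q, ∃ a : Row n i, χ i p q = col (p a).1 (q a).1) ∧
      ∀ (i j : Fin n) (x y : ZMod 2 → F), i ≠ j →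
        χ i (fun a => x (a.1 j)) (fun a => y (a.1 j)) =
          χ j (fun b => x (b.1 i)) (fun b => y (b.1 i)) := fun F =>
    h1 O T l k hlk hsol n hkn F (fun a b => col a.1 b.1)
      ⟨fun x => hcol.1 _, fun x y => hcol.2.1 _ _, fun x y z => hcol.2.2 _ _ _⟩
  choose χF hFc hFv hFm using hF
  obtain ⟨U, hU⟩ := Ultrafilter.exists_le (Filter.atTop : Filter (Finset V))
  let val : Finset V → (i : Fin n) → (Row n i → V) → (Row n i → V) → O := fun F i p q =>
    if h : (∀ a, p a ∈ F) ∧ (∀ a, q a ∈ F) then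
      χF F i (fun a => ⟨p a, h.1 a⟩) (fun a => ⟨q a, h.2 a⟩) else T.e
  have hval : ∀ (F : Finset V) (i : Fin n) (p q : Row n i → V) (hp : ∀ a, p a ∈ F)
      (hq : ∀ a, q a ∈ F), val F i p q = χF F i (fun a => ⟨p a, hp a⟩) (fun a => ⟨q a, hq a⟩) := by
    intro F i p q hp hq
    exact dif_pos ⟨hp, hq⟩
  have hlim : ∀ (i : Fin n) (p q : Row n i → V), ∃ o : O,
      ∀ᶠ F in (U : Filter (Finset V)), val F i p q = o := by
    intro i p q
    obtain ⟨o, ho⟩ := Ultrafilter.eq_pure_of_finite (U.map (fun F => val F i p q))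
    refine ⟨o, ?_⟩
    have h2 : {o' : O | o' = o} ∈ (U.map (fun F => val F i p q)) := by
      rw [ho]
      exact Ultrafilter.mem_pure.2 rfl
    exact h2
  choose χ hχ using hlim
  have ev := fun (i : Fin n) (p : Row n i → V) => ev_mem_ID U hU p
  refine ⟨χ, fun i => ⟨fun p => ?_, fun p q => ?_, fun p q r => ?_⟩, fun i p q => ?_, ?_⟩
  · obtain ⟨F, h2, hp⟩ := ((hχ i p p).and (ev i p)).exists
    rw [← h2, hval F i p p hp hp]
    exact (hFc F i).1 _
  · obtain ⟨F, ⟨h2, h3⟩, hp, hq⟩ :=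
      (((hχ i p q).and (hχ i q p)).and ((ev i p).and (ev i q))).exists
    rw [← h2, ← h3, hval F i p q hp hq, hval F i q p hq hp]
    exact (hFc F i).2.1 _ _
  · obtain ⟨F, ⟨h2, h3, h4⟩, hp, hq, hr⟩ :=
      (((hχ i p q).and ((hχ i q r).and (hχ i p r))).and
        ((ev i p).and ((ev i q).and (ev i r)))).exists
    rw [← h2, ← h3, ← h4, hval F i p q hp hq, hval F i q r hq hr, hval F i p r hp hr]
    exact (hFc F i).2.2 _ _ _
  · obtain ⟨F, h2, hp, hq⟩ := ((hχ i p q).and ((ev i p).and (ev i q))).exists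
    obtain ⟨a, ha⟩ := hFv F i (fun a => ⟨p a, hp a⟩) (fun a => ⟨q a, hq a⟩)
    refine ⟨a, ?_⟩
    rw [← h2, hval F i p q hp hq]
    exact ha
  · intro i j x y hij
    obtain ⟨F, ⟨h2, h3⟩, hx, hy⟩ :=
      (((hχ i (fun a => x (a.1 j)) (fun a => y (a.1 j))).and
        (hχ j (fun b => x (b.1 i)) (fun b => y (b.1 i)))).and
        ((ev_mem_ID U hU x).and (ev_mem_ID U hU y))).exists
    rw [← h2, ← h3, hval F i _ _ (fun a => hx _) (fun a => hy _),
      hval F j _ _ (fun a => hx _) (fun a => hy _)]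
    exact hFm F i j (fun z => ⟨x z, hx z⟩) (fun z => ⟨y z, hy z⟩) hij

end Pool.Agent.Helper32.RA7
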