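import Mathlib
import Pool.Agent.Helper32.RA7.M_BA
import Pool.Agent.Helper32.RA7.M_BB
import Pool.Agent.Helper32.RA7.M_BC
import Pool.Agent.Helper32.RA7.M_BD
import Pool.Agent.Helper32.RA7.M_BE
import Pool.Agent.Helper32.RA7.M_BF
import Pool.Agent.Helper32.RA7.M_BG
import Pool.Agent.Helper32.RA7.M_BH
import Pool.Agent.Helper32.RA7.M_BI
import Pool.Agent.Helper32.RA7.M_BJ
import Pool.Agent.Helper32.RA7.M_BK
import Pool.Agent.Helper32.RA7.M_IA
import Pool.Agent.Helper32.RA7.M_IB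
import Pool.Agent.Helper32.RA7.M_IC
import Pool.Agent.Helper32.RA7.M_ID

set_option autoImplicit false

namespace Pool.Agent.Helper32.RA7

theorem tBC : StBC := m_BC m_BA
theorem tBE : StBE := m_BE m_BA tBC
theorem tBF : StBF := m_BF tBC m_BD tBE
theorem tBG : StBG := m_BG tBF
theorem tBI : StBI := m_BI tBF tBG m_BH
theorem tBJ : StBJ := m_BJ (m_BB m_BA) tBI
theorem tBK : StBK := m_BK tBC tBF
theorem tIB : StIB := m_IB m_IA
theorem tIC : StIC := m_IC
theorem tID : StID := m_ID tIB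
theorem tBD : StBD := m_BD

end Pool.Agent.Helper32.RA7
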