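import Mathlib
import Pool.Agent.Helper32.RA7.Defs
import Pool.Agent.Helper74.RA7.Base

set_option autoImplicit false

/-! AS1: a good linear order of the non-identity atoms gives the completeness of the
(2,3)-consistency procedure. -/

namespace Pool.Agent.Helper32.RA7

/-- the structure on the non-identity atoms -/
def toNS {O : Type} (T : Str O) : RA7.NS {a : O // a ≠ T.e} where
  R := fun a b c => T.R a.1 b.1 c.1
  r12 := fun _ _ _ h => T.sw _ _ _ h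
  r23 := fun _ _ _ h => T.sw _ _ _ (T.rot _ _ _ (T.rot _ _ _ h))
  s := ⟨T.s, T.se⟩
  flex := fun a b => T.flex _ _ a.2 b.2

section order

variable {N : Type} (S : RA7.NS N) (L : N → N → Prop)

/-- (Q): x, y, w allowed and y before w give x, y, y -/
private theorem q_AS1 (hH : RA7.H1 S) (hG : RA7.Good S L) (x y w : N) (h : S.R x y w)
    (hl : L y w) : S.R x y y := by
  obtain ⟨⟨-, -, htot⟩, -⟩ := hG.lin
  by_cases hxy : x = y
  · subst hxy
    exact hH x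
  · rcases htot x y hxy with h1 | h1
    · have h2 : S.R y x w := S.r12 _ _ _ h
      have h3 : S.R y x y := hG.c1 y x y w h1 hl h2
      exact S.r12 _ _ _ h3
    · have h2 : S.R y y x := hG.c2 y x h1
      exact S.r12 _ _ _ (S.r23 _ _ _ h2)

/-- the translation lemma: m y z is the earlier one of y and z -/
private theorem tl_AS1 (hH : RA7.H1 S) (hG : RA7.Good S L) (x z w y z' w' : N) (h : S.R x z w)
    (hz : (z' = y ∧ (z = y ∨ L y z)) ∨ (z' = z ∧ (z = y ∨ L z y)))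
    (hw : (w' = y ∧ (w = y ∨ L y w)) ∨ (w' = w ∧ (w = y ∨ L w y))) : S.R x z' w' := by
  rcases hz with ⟨rfl, hz⟩ | ⟨rfl, hz⟩
  · rcases hw with ⟨rfl, hw⟩ | ⟨rfl, hw⟩
    · rcases hz with rfl | hz
      · rcases hw with rfl | hw
        · exact h
        · exact q_AS1 S L hH hG _ _ _ h hw
      · rcases hw with rfl | hw
        · exact q_AS1 S L hH hG _ _ _ (S.r23 _ _ _ h) hz
        · exact hG.c1' _ _ _ _ hz hw h
    · rcases hz with rfl | hz
      · exact h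
      · rcases hw with rfl | hw
        · exact q_AS1 S L hH hG _ _ _ (S.r23 _ _ _ h) hz
        · exact S.r23 _ _ _ (hG.c1 x w' z' z hw hz (S.r23 _ _ _ h))
  · rcases hw with ⟨rfl, hw⟩ | ⟨rfl, hw⟩
    · rcases hw with rfl | hw
      · exact h
      · rcases hz with rfl | hz
        · exact q_AS1 S L hH hG _ _ _ h hw
        · exact hG.c1 _ _ _ _ hz hw h
    · exact h

end order

section sets

variable {O : Type} (T : Str O) (L : {a : O // a ≠ T.e} → {a : O // a ≠ T.e} → Prop)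

/-- w is the winner of the set G -/
def IsW (G : Set O) (w : O) : Prop :=
  w ∈ G ∧ ∀ (a : O) (ha : a ≠ T.e), a ∈ G → ∃ hw : w ≠ T.e, w = a ∨ L ⟨w, hw⟩ ⟨a, ha⟩

/-- supports -/
def Supp (A B C : Set O) : Prop :=
  (∀ a ∈ A, ∃ b ∈ B, ∃ c ∈ C, T.R a b c) ∧ (∀ b ∈ B, ∃ a ∈ A, ∃ c ∈ C, T.R a b c) ∧
    (∀ c ∈ C, ∃ a ∈ A, ∃ b ∈ B, T.R a b c)

private theorem r23_AS1 (a b c : O) (h : T.R a b c) : T.R a c b :=
  T.sw _ _ _ (T.rot _ _ _ (T.rot _ _ _ h))

private theorem suppSw_AS1 (A B C : Set O) (h : Supp T A B C) : Supp T B A C := by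
  obtain ⟨h1, h2, h3⟩ := h
  refine ⟨?_, ?_, ?_⟩
  · intro b hb
    obtain ⟨a, ha, c, hc, hr⟩ := h2 b hb
    exact ⟨a, ha, c, hc, T.sw _ _ _ hr⟩
  · intro a ha
    obtain ⟨b, hb, c, hc, hr⟩ := h1 a ha
    exact ⟨b, hb, c, hc, T.sw _ _ _ hr⟩
  · intro c hc
    obtain ⟨a, ha, b, hb, hr⟩ := h3 c hc
    exact ⟨b, hb, a, ha, T.sw _ _ _ hr⟩

private theorem supp23_AS1 (A B C : Set O) (h : Supp T A B C) : Supp T A C B := by
  obtain ⟨h1, h2, h3⟩ := h
  refine ⟨?_, ?_, ?_⟩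
  · intro a ha
    obtain ⟨b, hb, c, hc, hr⟩ := h1 a ha
    exact ⟨c, hc, b, hb, r23_AS1 T _ _ _ hr⟩
  · intro c hc
    obtain ⟨a, ha, b, hb, hr⟩ := h3 c hc
    exact ⟨a, ha, b, hb, r23_AS1 T _ _ _ hr⟩
  · intro b hb
    obtain ⟨a, ha, c, hc, hr⟩ := h2 b hb
    exact ⟨a, ha, c, hc, r23_AS1 T _ _ _ hr⟩

/-- the ordered case: c* before b* before a* -/
private theorem ordered_AS1 (hH : RA7.H1 (toNS T)) (hG : RA7.Good (toNS T) L) (A B C : Set O)
    (h : Supp T A B C) (a b c : O) (hA : IsW T L A a) (hB : IsW T L B b) (hC : IsW T L C c)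
    (ha : a ≠ T.e) (hb : b ≠ T.e) (hc : c ≠ T.e)
    (hcb : c = b ∨ L ⟨c, hc⟩ ⟨b, hb⟩) (hba : b = a ∨ L ⟨b, hb⟩ ⟨a, ha⟩) : T.R a b c := by
  obtain ⟨⟨hirr, hasy, htot⟩, htr⟩ := hG.lin
  have hca : c = a ∨ L ⟨c, hc⟩ ⟨a, ha⟩ := by
    rcases hcb with h1 | h1
    · subst h1
      exact hba
    · rcases hba with h2 | h2
      · subst h2
        exact Or.inr h1
      · exact Or.inr (htr _ _ _ h1 h2)
  obtain ⟨a3, ha3, b3, hb3, hr⟩ := h.2.2 c hC.1
  by_cases e1 : a3 = T.e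
  · -- b3 = c
    subst e1
    have h1 : b3 = c := (T.idl _ _).mp hr
    subst h1
    obtain ⟨_, h2⟩ := hB.2 b3 hc hb3
    have hbc : b = b3 := by
      rcases h2 with h2 | h2
      · exact h2
      · rcases hcb with h3 | h3
        · exact h3.symm
        · exact absurd h2 (hasy _ _ h3)
    subst hbc
    rcases hba with h3 | h3
    · subst h3
      exact hH ⟨b, hb⟩
    · have h4 : T.R b b a := hG.c2 ⟨b, hb⟩ ⟨a, ha⟩ h3
      exact T.rot _ _ _ (T.rot _ _ _ h4)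
  by_cases e2 : b3 = T.e
  · subst e2
    have h1 : a3 = c := (T.idl _ _).mp (T.sw _ _ _ hr)
    subst h1
    obtain ⟨_, h2⟩ := hA.2 a3 hc ha3
    have hac : a = a3 := by
      rcases h2 with h2 | h2
      · exact h2
      · rcases hca with h3 | h3
        · exact h3.symm
        · exact absurd h2 (hasy _ _ h3)
    subst hac
    have hab : b = a := by
      rcases hba with h3 | h3
      · exact h3
      · rcases hcb with h4 | h4
        · exact h4.symm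
        · exact absurd h3 (hasy _ _ h4)
    subst hab
    exact hH ⟨b, hb⟩
  -- all in N
  obtain ⟨_, ha3'⟩ := hA.2 a3 e1 ha3
  obtain ⟨_, hb3'⟩ := hB.2 b3 e2 hb3
  have hr1 : (toNS T).R ⟨c, hc⟩ ⟨a3, e1⟩ ⟨b3, e2⟩ := T.rot _ _ _ (T.rot _ _ _ hr)
  -- m = min (a, b3)
  have hm : ∃ (m : O) (hme : m ≠ T.e), ((m = a ∧ (b3 = a ∨ L ⟨a, ha⟩ ⟨b3, e2⟩)) ∨
      (m = b3 ∧ (b3 = a ∨ L ⟨b3, e2⟩ ⟨a, ha⟩))) ∧ (m = b ∨ L ⟨b, hb⟩ ⟨m, hme⟩) := by
    by_cases h1 : b3 = a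
    · subst h1
      exact ⟨b3, e2, Or.inl ⟨rfl, Or.inl rfl⟩, hba.imp (fun h => h.symm) id⟩
    · have h2 : (⟨b3, e2⟩ : {a : O // a ≠ T.e}) ≠ ⟨a, ha⟩ := fun h => h1 (congrArg Subtype.val h)
      rcases htot _ _ h2 with h3 | h3
      · exact ⟨b3, e2, Or.inr ⟨rfl, Or.inr h3⟩, hb3'.imp (fun h => h.symm) id⟩
      · exact ⟨a, ha, Or.inl ⟨rfl, Or.inr h3⟩, hba.imp (fun h => h.symm) id⟩
  obtain ⟨m, hme, hm1, hm2⟩ := hm
  have hr2 : (toNS T).R ⟨c, hc⟩ ⟨a, ha⟩ ⟨m, hme⟩ := by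
    apply tl_AS1 (toNS T) L hH hG ⟨c, hc⟩ ⟨a3, e1⟩ ⟨b3, e2⟩ ⟨a, ha⟩ ⟨a, ha⟩ ⟨m, hme⟩ hr1
    · refine Or.inl ⟨rfl, ?_⟩
      rcases ha3' with h1 | h1
      · exact Or.inl (Subtype.ext h1.symm)
      · exact Or.inr h1
    · rcases hm1 with ⟨h1, h2⟩ | ⟨h1, h2⟩
      · refine Or.inl ⟨Subtype.ext h1, ?_⟩
        rcases h2 with h2 | h2
        · exact Or.inl (Subtype.ext h2)
        · exact Or.inr h2
      · refine Or.inr ⟨Subtype.ext h1, ?_⟩
        rcases h2 with h2 | h2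
        · exact Or.inl (Subtype.ext h2)
        · exact Or.inr h2
  have hr3 : (toNS T).R ⟨a, ha⟩ ⟨c, hc⟩ ⟨m, hme⟩ := (toNS T).r12 _ _ _ hr2
  have hr4 : (toNS T).R ⟨a, ha⟩ ⟨c, hc⟩ ⟨b, hb⟩ := by
    apply tl_AS1 (toNS T) L hH hG ⟨a, ha⟩ ⟨c, hc⟩ ⟨m, hme⟩ ⟨b, hb⟩ ⟨c, hc⟩ ⟨b, hb⟩ hr3
    · refine Or.inr ⟨rfl, ?_⟩
      rcases hcb with h1 | h1
      · exact Or.inl (Subtype.ext h1)
      · exact Or.inr h1
    · refine Or.inl ⟨rfl, ?_⟩
      rcases hm2 with h1 | h1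
      · exact Or.inl (Subtype.ext h1)
      · exact Or.inr h1
  exact (toNS T).r23 _ _ _ hr4

/-- the general case -/
private theorem general_AS1 (hH : RA7.H1 (toNS T)) (hG : RA7.Good (toNS T) L) (w : Set O → O)
    (A B C : Set O) (h : Supp T A B C) (hA : IsW T L A (w A)) (hB : IsW T L B (w B))
    (hC : IsW T L C (w C)) : T.R (w A) (w B) (w C) := by
  -- singleton case
  have hsing : ∀ A B C : Set O, Supp T A B C → IsW T L A (w A) → w A = T.e → w B = w C := by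
    intro A B C h hA hw
    have hAe : ∀ a ∈ A, a = T.e := by
      intro a ha
      by_contra hn
      obtain ⟨h1, _⟩ := hA.2 a hn ha
      exact h1 hw
    have hBC : B = C := by
      apply Set.Subset.antisymm
      · intro b hb
        obtain ⟨a, ha, c, hc, hr⟩ := h.2.1 b hb
        rw [hAe a ha] at hr
        rw [(T.idl _ _).mp hr]
        exact hc
      · intro c hc
        obtain ⟨a, ha, b, hb, hr⟩ := h.2.2 c hc
        rw [hAe a ha] at hr
        rw [← (T.idl _ _).mp hr]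
        exact hb
    rw [hBC]
  by_cases ea : w A = T.e
  · rw [ea, hsing A B C h hA ea]
    exact (T.idl _ _).mpr rfl
  by_cases eb : w B = T.e
  · rw [eb, hsing B A C (suppSw_AS1 T _ _ _ h) hB eb]
    exact T.sw _ _ _ ((T.idl _ _).mpr rfl)
  by_cases ec : w C = T.e
  · rw [ec, hsing C A B (suppSw_AS1 T _ _ _ (supp23_AS1 T _ _ _ h)) hC ec]
    exact T.rot _ _ _ ((T.idl _ _).mpr rfl)
  obtain ⟨⟨hirr, hasy, htot⟩, htr⟩ := hG.lin
  have tot : ∀ (x y : O) (hx : x ≠ T.e) (hy : y ≠ T.e),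
      (x = y ∨ L ⟨x, hx⟩ ⟨y, hy⟩) ∨ (y = x ∨ L ⟨y, hy⟩ ⟨x, hx⟩) := by
    intro x y hx hy
    by_cases hxy : x = y
    · exact Or.inl (Or.inl hxy)
    · rcases htot ⟨x, hx⟩ ⟨y, hy⟩ (fun h => hxy (congrArg Subtype.val h)) with h1 | h1
      · exact Or.inl (Or.inr h1)
      · exact Or.inr (Or.inr h1)
  have key := ordered_AS1 T L hH hG
  have sAB := suppSw_AS1 T _ _ _ h
  have sAC := supp23_AS1 T _ _ _ h
  have sCA := suppSw_AS1 T _ _ _ sAC
  have sBC := supp23_AS1 T _ _ _ sAB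
  have sCB := suppSw_AS1 T _ _ _ sBC
  rcases tot (w A) (w B) ea eb with hab | hba <;> rcases tot (w B) (w C) eb ec with hbc | hcb <;>
    rcases tot (w A) (w C) ea ec with hac | hca
  · -- a ≤ b ≤ c : R c b a
    have := key C B A sCB (w C) (w B) (w A) hC hB hA ec eb ea hab hbc
    exact T.sw _ _ _ (T.rot _ _ _ this)
  · have := key C B A sCB (w C) (w B) (w A) hC hB hA ec eb ea hab hbc
    exact T.sw _ _ _ (T.rot _ _ _ this)
  · -- a ≤ b, c ≤ b, a ≤ c : b last, c middle, a first : R b c a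
    have := key B C A sBC (w B) (w C) (w A) hB hC hA eb ec ea hac hcb
    exact T.rot _ _ _ (T.rot _ _ _ this)
  · -- c ≤ a ≤ b : R b a c
    have := key B A C sAB (w B) (w A) (w C) hB hA hC eb ea ec hca hab
    exact T.sw _ _ _ this
  · -- b ≤ a, b ≤ c, a ≤ c : R c a b
    have := key C A B sCA (w C) (w A) (w B) hC hA hB ec ea eb hba hac
    exact T.rot _ _ _ this
  · -- b ≤ a, b ≤ c, c ≤ a : R a c b
    have := key A C B sAC (w A) (w C) (w B) hA hC hB ea ec eb hbc hca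
    exact r23_AS1 T _ _ _ this
  · -- b ≤ a, c ≤ b, a ≤ c
    exact key A B C h (w A) (w B) (w C) hA hB hC ea eb ec hcb hba
  · exact key A B C h (w A) (w B) (w C) hA hB hC ea eb ec hcb hba

end sets

/-- AS1 -/
def StAS1 : Prop := ∀ (O : Type) [Finite O] (T : Str O), RA7.H1 (toNS T) →
  (∃ L, RA7.Good (toNS T) L) → CSolves T 2 3

theorem m_AS1 : StAS1 := by
  intro O _ T hH hL X _ F hacc
  classical
  obtain ⟨L, hG⟩ := hL
  obtain ⟨P, hP, hne⟩ := hacc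
  obtain ⟨⟨hirr, hasy, htot⟩, htr⟩ := hG.lin
  -- winners exist
  have hwin : ∀ G : Set O, G.Nonempty → ∃ w, IsW T L G w := by
    intro G hGn
    by_cases h1 : ∃ a ∈ G, a ≠ T.e
    · have hwf : WellFounded L := by
        have : IsTrans _ L := ⟨htr⟩
        have : Std.Irrefl L := ⟨hirr⟩
        exact Finite.wellFounded_of_trans_of_irrefl L
      let G' : Set {a : O // a ≠ T.e} := {a | a.1 ∈ G}
      have hG' : G'.Nonempty := by
        obtain ⟨a, ha, hae⟩ := h1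
        exact ⟨⟨a, hae⟩, ha⟩
      let m := hwf.min G' hG'
      have hm1 : m ∈ G' := hwf.min_mem G' hG'
      refine ⟨m.1, hm1, ?_⟩
      intro a ha hag
      refine ⟨m.2, ?_⟩
      by_cases h2 : m.1 = a
      · exact Or.inl h2
      · right
        have h3 : (⟨m.1, m.2⟩ : {a : O // a ≠ T.e}) ≠ ⟨a, ha⟩ := fun h =>
          h2 (congrArg Subtype.val h)
        rcases htot _ _ h3 with h4 | h4
        · exact h4
        · exact absurd h4 (hwf.not_lt_min G' (show (⟨a, ha⟩ : {a : O // a ≠ T.e}) ∈ G' from hag))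
    · push Not at h1
      obtain ⟨a, ha⟩ := hGn
      have h2 := h1 a ha
      subst h2
      exact ⟨T.e, ha, fun a hae hag => absurd (h1 a hag) hae⟩
  let G : X → X → Set O := fun x y => {a | ∃ (K : Finset X) (hx : x ∈ K) (hy : y ∈ K),
    K.card ≤ 2 ∧ ∃ σ ∈ P K, σ ⟨x, hx⟩ ⟨y, hy⟩ = a}
  have hGF : ∀ x y a, a ∈ G x y → a ∈ F x y := by
    rintro x y a ⟨K, hx, hy, hK, σ, hσ, rfl⟩
    exact (hP K hK σ hσ).1.2 ⟨x, hx⟩ ⟨y, hy⟩
  have hGne : ∀ x y, (G x y).Nonempty := by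
    intro x y
    have hc : ({x, y} : Finset X).card ≤ 2 := Finset.card_le_two
    obtain ⟨σ, hσ⟩ := hne {x, y} hc
    exact ⟨_, {x, y}, by simp, by simp, hc, σ, hσ, rfl⟩
  have hGsy : ∀ x y, G x y = G y x := by
    have h1 : ∀ x y a, a ∈ G x y → a ∈ G y x := by
      rintro x y a ⟨K, hx, hy, hK, σ, hσ, rfl⟩
      exact ⟨K, hy, hx, hK, σ, hσ, (hP K hK σ hσ).1.1.2.1 _ _⟩
    intro x y
    exact Set.Subset.antisymm (h1 x y) (h1 y x)
  have hGxx : ∀ x a, a ∈ G x x → a = T.e := by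
    rintro x a ⟨K, hx, hy, hK, σ, hσ, rfl⟩
    exact (hP K hK σ hσ).1.1.1 _
  have hGtr : ∀ x y z a, a ∈ G x y → ∃ p ∈ G x z, ∃ q ∈ G z y, T.R p q a := by
    rintro x y z a ⟨K, hx, hy, hK, σ, hσ, rfl⟩
    have hc : (insert z K).card ≤ 3 := (Finset.card_insert_le z K).trans (by omega)
    obtain ⟨τ, hτ1, hτ2, hτ3⟩ := (hP K hK σ hσ).2 (insert z K) (Finset.subset_insert z K) hc
    have hxK : x ∈ insert z K := Finset.mem_insert_of_mem hx
    have hyK : y ∈ insert z K := Finset.mem_insert_of_mem hy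
    have hzK : z ∈ insert z K := Finset.mem_insert_self z K
    have hxz : ({x, z} : Finset X) ⊆ insert z K := by
      intro u hu
      rcases Finset.mem_insert.mp hu with h | h
      · rw [h]; exact hxK
      · rw [Finset.mem_singleton.mp h]; exact hzK
    have hzy : ({z, y} : Finset X) ⊆ insert z K := by
      intro u hu
      rcases Finset.mem_insert.mp hu with h | h
      · rw [h]; exact hzK
      · rw [Finset.mem_singleton.mp h]; exact hyK
    have c1 : ({x, z} : Finset X).card ≤ 2 := Finset.card_le_two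
    have c2 : ({z, y} : Finset X).card ≤ 2 := Finset.card_le_two
    refine ⟨τ ⟨x, hxK⟩ ⟨z, hzK⟩, ⟨{x, z}, by simp, by simp, c1, _, hτ3 _ hxz c1, rfl⟩,
      τ ⟨z, hzK⟩ ⟨y, hyK⟩, ⟨{z, y}, by simp, by simp, c2, _, hτ3 _ hzy c2, rfl⟩, ?_⟩
    have h4 : σ ⟨x, hx⟩ ⟨y, hy⟩ = τ ⟨x, hxK⟩ ⟨y, hyK⟩ := by
      rw [← hτ2]
      rfl
    rw [h4]
    exact hτ1.1.2.2 _ _ _
  have hsupp : ∀ x y z, Supp T (G x y) (G y z) (G x z) := by
    intro x y z
    refine ⟨?_, ?_, ?_⟩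
    · intro a ha
      obtain ⟨p, hp, q, hq, hr⟩ := hGtr x y z a ha
      -- R p q a, p ∈ G x z, q ∈ G z y
      rw [hGsy] at hq
      exact ⟨q, hq, p, hp, T.rot _ _ _ (T.rot _ _ _ (T.sw _ _ _ hr))⟩
    · intro b hb
      obtain ⟨p, hp, q, hq, hr⟩ := hGtr y z x b hb
      -- R p q b, p ∈ G y x, q ∈ G x z
      rw [hGsy] at hp
      exact ⟨p, hp, q, hq, r23_AS1 T _ _ _ hr⟩
    · intro c hc
      obtain ⟨p, hp, q, hq, hr⟩ := hGtr x z y c hc
      exact ⟨p, hp, q, hq, hr⟩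
  let w : Set O → O := fun G => if h : G.Nonempty then (hwin G h).choose else T.e
  have hw : ∀ G : Set O, G.Nonempty → IsW T L G (w G) := by
    intro G h
    have : w G = (hwin G h).choose := by
      simp only [w, h, dite_true]
    rw [this]
    exact (hwin G h).choose_spec
  refine ⟨fun x y => w (G x y), ⟨?_, ?_, ?_⟩, ?_⟩
  · intro x
    exact hGxx x _ (hw _ (hGne x x)).1
  · intro x y
    show w (G x y) = w (G y x)
    rw [hGsy]
  · intro x y z
    exact general_AS1 T L hH hG w _ _ _ (hsupp x y z) (hw _ (hGne x y)) (hw _ (hGne y z))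
      (hw _ (hGne x z))
  · intro x y
    exact hGF x y _ (hw _ (hGne x y)).1

end Pool.Agent.Helper32.RA7
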