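import Mathlib
import Pool.Agent.Helper32.RA7.St

set_option autoImplicit false

namespace Pool.Agent.Helper32.RA7

instance finiteRow_IB (n : ℕ) (i : Fin n) : Finite (Row n i) := by
  unfold Row
  infer_instance

/-- the points -/
abbrev Pt_IB (n : ℕ) (V : Type) : Type := Σ i : Fin n, (Row n i → V)

/-- the constraints -/
def F_IB {O : Type} (T : Str O) (n : ℕ) (V : Type) (col : V → V → O) :
    Pt_IB n V → Pt_IB n V → Set O :=
  fun u v => {o | (∀ (i : Fin n) (p q : Row n i → V), u = ⟨i, p⟩ → v = ⟨i, q⟩ →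
      ∃ a : Row n i, o = col (p a) (q a)) ∧
    ∀ (i j : Fin n) (p : Row n i → V) (q : Row n j → V) (x : ZMod 2 → V), i ≠ j →
      u = ⟨i, p⟩ → v = ⟨j, q⟩ → (∀ a : Row n i, p a = x (a.1 j)) →
      (∀ b : Row n j, q b = x (b.1 i)) → o = T.e}

/-- a row -/
def row_IB {n : ℕ} (i : Fin n) (a : Fin n → ZMod 2) (h0 : a i = 0) (h : ∑ j, a j = ch i) :
    Row n i := ⟨a, h0, h⟩

theorem row_congr_IB {n : ℕ} (i : Fin n) (a b : Fin n → ZMod 2) (hab : a = b) (h0 : a i = 0)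
    (h : ∑ j, a j = ch i) (h0' : b i = 0) (h' : ∑ j, b j = ch i) :
    row_IB i a h0 h = row_IB i b h0' h' := by
  subst hab
  rfl

/-- the labelling property -/
def Lab_IB {O : Type} {n : ℕ} {V : Type} (col : V → V → O) (K : Finset (Pt_IB n V))
    (A : Fin n → Fin n → ZMod 2) (h0 : ∀ i, A i i = 0) (σ : K → K → O) : Prop :=
  ∀ (u v : K) (hu : ∑ j, A u.1.1 j = ch u.1.1) (hv : ∑ j, A v.1.1 j = ch v.1.1),
    σ u v = col (u.1.2 (row_IB _ (A u.1.1) (h0 _) hu)) (v.1.2 (row_IB _ (A v.1.1) (h0 _) hv))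

/-- the constraint sets -/
def P_IB {O : Type} {n : ℕ} {V : Type} (col : V → V → O) (K : Finset (Pt_IB n V)) :
    Set (K → K → O) :=
  {σ | ∃ i0 : Fin n, (∀ u ∈ K, u.1 ≠ i0) ∧ ∃ A : Fin n → Fin n → ZMod 2,
    ∃ h0 : ∀ i, A i i = 0, (∀ i j, A i j = A j i) ∧ (∀ i, i ≠ i0 → ∑ j, A i j = ch i) ∧
      Lab_IB col K A h0 σ}

theorem part_IB {O : Type} (T : Str O) {n : ℕ} {V : Type} (col : V → V → O)
    (hcol : Closed T col) (K : Finset (Pt_IB n V)) (σ : K → K → O) (hσ : σ ∈ P_IB col K) :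
    CPart T (F_IB T n V col) K σ := by
  obtain ⟨i0, hK, A, h0, hs, hrow, hlab⟩ := hσ
  have hr : ∀ u : K, ∑ j, A u.1.1 j = ch u.1.1 := fun u => hrow _ (hK u.1 u.2)
  have hval : ∀ u v : K, σ u v = col (u.1.2 (row_IB _ (A u.1.1) (h0 _) (hr u))) (v.1.2 (row_IB _ (A v.1.1) (h0 _) (hr v))) :=
    fun u v => hlab u v (hr u) (hr v)
  refine ⟨⟨fun x => ?_, fun x y => ?_, fun x y z => ?_⟩, fun x y => ?_⟩
  · rw [hval]; exact hcol.1 _
  · rw [hval x y, hval y x]; exact hcol.2.1 _ _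
  · rw [hval x y, hval y z, hval x z]; exact hcol.2.2 _ _ _
  · refine ⟨?_, ?_⟩
    · intro i p q hx hy
      have hi : ∑ j, A i j = ch i := by have := hr x; rw [hx] at this; exact this
      refine ⟨row_IB i (A i) (h0 _) hi, ?_⟩
      rw [hval x y]
      obtain ⟨x, hxK⟩ := x
      obtain ⟨y, hyK⟩ := y
      simp only at hx hy
      subst hx
      subst hy
      rfl
    · intro i j p q f hij hx hy hp hq
      rw [hval x y]
      obtain ⟨x, hxK⟩ := x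
      obtain ⟨y, hyK⟩ := y
      simp only at hx hy
      subst hx
      subst hy
      simp only
      rw [hp, hq]
      show col (f (A i j)) (f (A j i)) = T.e
      rw [hs i j]
      exact hcol.1 _

theorem exists_row_IB {n : ℕ} {V : Type} (K : Finset (Pt_IB n V)) (k : ℕ) (hK : K.card ≤ k)
    (hk : k < n) : ∃ i0 : Fin n, ∀ u ∈ K, u.1 ≠ i0 := by
  classical
  by_contra hcon
  push Not at hcon
  have h1 : (Finset.univ : Finset (Fin n)) ⊆ K.image (fun u => u.1) := by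
    intro i _
    obtain ⟨u, hu, hui⟩ := hcon i
    exact Finset.mem_image.2 ⟨u, hu, hui⟩
  have h2 := Finset.card_le_card h1
  have h3 : (K.image (fun u => u.1)).card ≤ K.card := Finset.card_image_le
  rw [Finset.card_univ, Fintype.card_fin] at h2
  omega

theorem mk_IB {O : Type} {n : ℕ} {V : Type} (col : V → V → O) (K : Finset (Pt_IB n V))
    (i0 : Fin n) (hK : ∀ u ∈ K, u.1 ≠ i0) (A : Fin n → Fin n → ZMod 2) (h0 : ∀ i, A i i = 0)
    (hs : ∀ i j, A i j = A j i) (hrow : ∀ i, i ≠ i0 → ∑ j, A i j = ch i) :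
    ∃ τ : K → K → O, τ ∈ P_IB col K ∧ Lab_IB col K A h0 τ ∧
      ∀ (L : Finset (Pt_IB n V)) (h : L ⊆ K), res h τ ∈ P_IB col L := by
  have hr : ∀ u : K, ∑ j, A u.1.1 j = ch u.1.1 := fun u => hrow _ (hK u.1 u.2)
  let τ : K → K → O := fun u v =>
    col (u.1.2 (row_IB _ (A u.1.1) (h0 _) (hr u))) (v.1.2 (row_IB _ (A v.1.1) (h0 _) (hr v)))
  have hl : Lab_IB col K A h0 τ := fun u v _ _ => rfl
  refine ⟨τ, ⟨i0, hK, A, h0, hs, hrow, hl⟩, hl, fun L h => ?_⟩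
  exact ⟨i0, fun u hu => hK u (h hu), A, h0, hs, hrow, fun u v _ _ => rfl⟩

theorem m_IB (h1 : StIA) : StIB := by
  intro O T l k hlk hsol n hkn V _ col hcol
  obtain ⟨hA1, hA2⟩ := h1 n (by omega)
  have hacc : CAcc T (F_IB T n V col) l k := by
    refine ⟨fun L => P_IB col L, ?_, ?_⟩
    · intro L hL σ hσ
      refine ⟨part_IB T col hcol L σ hσ, ?_⟩
      intro K hLK hK
      obtain ⟨i0, hL0, A, h0, hs, hrow, hlab⟩ := hσ
      obtain ⟨i1, hi1⟩ := exists_row_IB K k hK hkn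
      have key : ∃ (A' : Fin n → Fin n → ZMod 2) (h0' : ∀ i, A' i i = 0),
          (∀ i j, A' i j = A' j i) ∧ (∀ i, i ≠ i1 → ∑ j, A' i j = ch i) ∧
          ∀ i j, i ≠ i0 → i ≠ i1 → A' i j = A i j := by
        by_cases h01 : i1 = i0
        · subst h01
          exact ⟨A, h0, hs, hrow, fun _ _ _ _ => rfl⟩
        · obtain ⟨A', hs', h0', hrow', hag⟩ := hA2 A i0 i1 hs h0 hrow h01
          exact ⟨A', h0', hs', hrow', hag⟩
      obtain ⟨A', h0', hs', hrow', hag⟩ := key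
      obtain ⟨τ, hτ, hτl, hres⟩ := mk_IB col K i1 hi1 A' h0' hs' hrow'
      refine ⟨τ, part_IB T col hcol K τ hτ, ?_, fun L' h' _ => hres L' h'⟩
      funext u v
      have hu0 : u.1.1 ≠ i0 := hL0 u.1 u.2
      have hv0 : v.1.1 ≠ i0 := hL0 v.1 v.2
      have hu1 : u.1.1 ≠ i1 := hi1 u.1 (hLK u.2)
      have hv1 : v.1.1 ≠ i1 := hi1 v.1 (hLK v.2)
      have e1 : A' u.1.1 = A u.1.1 := funext fun j => hag _ j hu0 hu1
      have e2 : A' v.1.1 = A v.1.1 := funext fun j => hag _ j hv0 hv1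
      rw [hlab u v (hrow _ hu0) (hrow _ hv0)]
      show τ ⟨u.1, hLK u.2⟩ ⟨v.1, hLK v.2⟩ = _
      rw [hτl ⟨u.1, hLK u.2⟩ ⟨v.1, hLK v.2⟩ (hrow' _ hu1) (hrow' _ hv1)]
      rw [row_congr_IB _ _ _ e1 (h0' _) (hrow' _ hu1) (h0 _) (hrow _ hu0),
        row_congr_IB _ _ _ e2 (h0' _) (hrow' _ hv1) (h0 _) (hrow _ hv0)]
    · intro L hL
      obtain ⟨i0, hi0⟩ := exists_row_IB L k (hL.trans hlk) hkn
      obtain ⟨A, hs, h0, hrow⟩ := hA1 i0
      obtain ⟨τ, hτ, -⟩ := mk_IB col L i0 hi0 A h0 hs hrow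
      exact ⟨τ, hτ⟩
  obtain ⟨C, hC, hCF⟩ := hsol (Pt_IB n V) (F_IB T n V col) hacc
  refine ⟨fun i p q => C ⟨i, p⟩ ⟨i, q⟩, fun i => ?_, fun i p q => ?_, ?_⟩
  · exact ⟨fun p => hC.1 _, fun p q => hC.2.1 _ _, fun p q r => hC.2.2 _ _ _⟩
  · exact (hCF ⟨i, p⟩ ⟨i, q⟩).1 i p q rfl rfl
  · intro i j x y hij
    have e1 : C ⟨i, fun a : Row n i => x (a.1 j)⟩ ⟨j, fun b : Row n j => x (b.1 i)⟩ = T.e :=
      (hCF _ _).2 i j _ _ x hij rfl rfl (fun _ => rfl) (fun _ => rfl)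
    have e2 : C ⟨i, fun a : Row n i => y (a.1 j)⟩ ⟨j, fun b : Row n j => y (b.1 i)⟩ = T.e :=
      (hCF _ _).2 i j _ _ y hij rfl rfl (fun _ => rfl) (fun _ => rfl)
    have e1' : C ⟨j, fun b : Row n j => x (b.1 i)⟩ ⟨i, fun a : Row n i => x (a.1 j)⟩ = T.e := by
      rw [hC.2.1]; exact e1
    show C ⟨i, fun a : Row n i => x (a.1 j)⟩ ⟨i, fun a : Row n i => y (a.1 j)⟩ =
      C ⟨j, fun b : Row n j => x (b.1 i)⟩ ⟨j, fun b : Row n j => y (b.1 i)⟩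
    have s1 := hC.2.2 ⟨j, fun b : Row n j => x (b.1 i)⟩ ⟨i, fun a : Row n i => x (a.1 j)⟩
      ⟨i, fun a : Row n i => y (a.1 j)⟩
    rw [e1', T.idl] at s1
    have s2 := hC.2.2 ⟨i, fun a : Row n i => y (a.1 j)⟩ ⟨j, fun b : Row n j => y (b.1 i)⟩
      ⟨j, fun b : Row n j => x (b.1 i)⟩
    rw [e2, T.idl] at s2
    rw [s1, hC.2.1 ⟨j, fun b : Row n j => x (b.1 i)⟩ ⟨i, fun a : Row n i => y (a.1 j)⟩, ← s2]
    exact hC.2.1 _ _

end Pool.Agent.Helper32.RA7
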